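import Pool.Agent.Q283.LP.Stm

set_option autoImplicit false

open scoped Classical

namespace Q187.LP

open Finset Module Q283.LP

/-- number of the pairs -/
theorem card_lt (n : ℕ) : Fintype.card {p : Fin n × Fin n // p.1 < p.2} = n * (n - 1) / 2 := by
  rw [Fintype.card_subtype]
  have e1 : (univ.filter fun p : Fin n × Fin n => p.1 < p.2).card = ∑ j : Fin n, (j : ℕ) := by
    rw [← univ_product_univ, card_filter, sum_product_right]
    apply sum_congr rfl
    intro j _
    rw [← card_filter]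
    have : (univ.filter fun i : Fin n => i < j) = Finset.Iio j := by
      ext i; simp
    rw [this, Fin.card_Iio]
  rw [e1, Fin.sum_univ_eq_sum_range (fun i => i) n, Finset.sum_range_id]

section
variable {M : Type} [Fintype M]

/-- index set: pairs above the diagonal in the blocks -/
abbrev Ix (r : M → ℕ) := Σ j : M, {p : Fin (r j) × Fin (r j) // p.1 < p.2}

/-- the matrix of a function on the pairs -/
noncomputable def mat (r : M → ℕ) (T : Ix r → ZMod 2) (k l : KK r) : ZMod 2 :=
  if h : k.1 = l.1 then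
    if h1 : (h ▸ k.2 : Fin (r l.1)) < l.2 then T ⟨l.1, ⟨(h ▸ k.2, l.2), h1⟩⟩
    else if h2 : l.2 < (h ▸ k.2 : Fin (r l.1)) then T ⟨l.1, ⟨(l.2, h ▸ k.2), h2⟩⟩
    else 0
  else 0

theorem mat_same (r : M → ℕ) (T : Ix r → ZMod 2) (j : M) (a b : Fin (r j)) :
    mat r T ⟨j, a⟩ ⟨j, b⟩ = if h1 : a < b then T ⟨j, ⟨(a, b), h1⟩⟩
    else if h2 : b < a then T ⟨j, ⟨(b, a), h2⟩⟩ else 0 := by
  unfold mat
  rw [dif_pos rfl]

theorem mat_alt (r : M → ℕ) (T : Ix r → ZMod 2) : Alt (fun k : KK r => k.1) (mat r T) := by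
  refine ⟨?_, ?_, ?_⟩
  · rintro ⟨j, a⟩ ⟨j', b⟩
    by_cases h : j = j'
    · subst h
      rw [mat_same, mat_same]
      by_cases h1 : a < b
      · rw [dif_pos h1, dif_neg h1.asymm, dif_pos h1]
      · by_cases h2 : b < a
        · rw [dif_neg h1, dif_pos h2, dif_pos h2]
        · rw [dif_neg h1, dif_neg h2, dif_neg h2, dif_neg h1]
    · unfold mat
      rw [dif_neg h, dif_neg (fun h' => h h'.symm)]
  · rintro ⟨j, a⟩
    rw [mat_same, dif_neg (lt_irrefl _), dif_neg (lt_irrefl _)]
  · intro k l h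
    unfold mat
    rw [dif_neg h]

theorem t_ALT' (r : M → ℕ) :
    (univ.filter fun S : KK r → KK r → ZMod 2 => Alt (fun k : KK r => k.1) S).card =
      Fintype.card (Ix r → ZMod 2) := by
  rw [← Finset.card_univ]
  apply Finset.card_bij' (fun S _ => fun x : Ix r => S ⟨x.1, x.2.1.1⟩ ⟨x.1, x.2.1.2⟩)
    (fun T _ => mat r T)
  · intro S _
    exact mem_univ _
  · intro T _
    rw [mem_filter]
    exact ⟨mem_univ _, mat_alt r T⟩
  · intro S hS
    obtain ⟨-, h1, h2, h3⟩ := mem_filter.1 hS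
    funext k l
    obtain ⟨j, a⟩ := k
    obtain ⟨j', b⟩ := l
    by_cases h : j = j'
    · subst h
      rw [mat_same]
      by_cases c1 : a < b
      · rw [dif_pos c1]
      · by_cases c2 : b < a
        · rw [dif_neg c1, dif_pos c2]
          exact h1 _ _
        · rw [dif_neg c1, dif_neg c2]
          have : a = b := le_antisymm (not_lt.1 c2) (not_lt.1 c1)
          rw [this]
          exact (h2 _).symm
    · rw [h3 ⟨j, a⟩ ⟨j', b⟩ h]
      unfold mat
      rw [dif_neg h]
  · intro T _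
    funext x
    obtain ⟨j, ⟨⟨a, b⟩, hab⟩⟩ := x
    show mat r T ⟨j, a⟩ ⟨j, b⟩ = _
    rw [mat_same, dif_pos hab]

end

theorem t_ALT : S_ALT := by
  intro M _ r
  rw [t_ALT' r, Fintype.card_fun, Fintype.card_sigma, ZMod.card, Finset.prod_pow_eq_pow_sum]
  congr 1
  apply sum_congr rfl
  intro j _
  exact card_lt (r j)

end Q187.LP
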