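import Pool.Agent.Q283.LP.Stm

set_option autoImplicit false

open scoped Classical

namespace Q187.LP

open Finset Module Q283.LP

theorem fin_map {V W : Type*} [AddCommGroup V] [Module (ZMod 2) V] [AddCommGroup W]
    [Module (ZMod 2) W] (f : V →ₗ[ZMod 2] W) (S : Submodule (ZMod 2) V)
    (hf : ∀ x ∈ S, f x = 0 → x = 0) : finrank (ZMod 2) (S.map f) = finrank (ZMod 2) S := by
  rw [← LinearMap.range_domRestrict]
  apply LinearMap.finrank_range_of_inj
  rw [← LinearMap.ker_eq_bot, LinearMap.ker_eq_bot']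
  rintro ⟨x, hx⟩ h
  exact Subtype.ext (hf x hx h)

/-- orthogonal subspaces for the dot product -/
theorem dot_bound (X : Type) [Fintype X] (P P' : Submodule (ZMod 2) (X → ZMod 2))
    (h : ∀ p ∈ P, ∀ p' ∈ P', ∑ x, p x * p' x = 0) :
    finrank (ZMod 2) P + finrank (ZMod 2) P' ≤ Fintype.card X := by
  have h1 := Subspace.finrank_add_finrank_dualAnnihilator_eq P
  rw [Module.finrank_fintype_fun_eq_card] at h1
  let T : (X → ZMod 2) →ₗ[ZMod 2] Dual (ZMod 2) (X → ZMod 2) :=
    { toFun := fun w =>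
        { toFun := fun v => ∑ x, v x * w x
          map_add' := fun u v => by
            simp only [Pi.add_apply, add_mul, sum_add_distrib]
          map_smul' := fun c v => by
            simp only [Pi.smul_apply, smul_eq_mul, RingHom.id_apply, mul_sum, mul_assoc] }
      map_add' := fun u v => by
        ext i
        simp [Pi.single_apply]
      map_smul' := fun c v => by
        ext i
        simp [Pi.single_apply] }
  have hT : ∀ w v, T w v = ∑ x, v x * w x := fun _ _ => rfl
  have hinj : ∀ w, T w = 0 → w = 0 := by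
    intro w hw
    funext i
    have := congrArg (fun f => f (Pi.single i 1)) hw
    simp only [hT] at this
    simpa [Pi.single_apply] using this
  have hle : P'.map T ≤ P.dualAnnihilator := by
    rintro _ ⟨w, hw, rfl⟩
    rw [Submodule.mem_dualAnnihilator]
    intro v hv
    rw [hT]
    exact h v hv w hw
  have h2 : finrank (ZMod 2) (P'.map T) = finrank (ZMod 2) P' :=
    fin_map T P' (fun x _ hx => hinj x hx)
  have h3 := Submodule.finrank_mono hle
  omega

/-- restriction to `D` as vectors of `D ⊕ D` -/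
def phi {K : Type} (D : Finset K) : WW K →ₗ[ZMod 2] (({k // k ∈ D} ⊕ {k // k ∈ D}) → ZMod 2) where
  toFun z := Sum.elim (fun k => z.1 k) (fun k => z.2 k)
  map_add' x y := by
    funext k
    rcases k with k | k <;> rfl
  map_smul' c x := by
    funext k
    rcases k with k | k <;> rfl

def psi {K : Type} (D : Finset K) : WW K →ₗ[ZMod 2] (({k // k ∈ D} ⊕ {k // k ∈ D}) → ZMod 2) where
  toFun z := Sum.elim (fun k => z.2 k) (fun k => z.1 k)
  map_add' x y := by
    funext k
    rcases k with k | k <;> rfl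
  map_smul' c x := by
    funext k
    rcases k with k | k <;> rfl

theorem phi_psi {K : Type} (D : Finset K) (z w : WW K) : ∑ x, phi D z x * psi D w x = Bf D z w := by
  rw [Fintype.sum_sum_type]
  unfold Bf
  rw [sum_add_distrib]
  congr 1
  · exact Finset.sum_coe_sort D (fun k => z.1 k * w.2 k)
  · have e : ∀ k : {k // k ∈ D}, phi D z (Sum.inr k) * psi D w (Sum.inr k) = w.1 k * z.2 k := by
      intro k
      show z.2 k * w.1 k = _
      rw [mul_comm]
    rw [Finset.sum_congr rfl (fun k _ => e k)]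
    exact Finset.sum_coe_sort D (fun k => w.1 k * z.2 k)

/-- orthogonal subspaces of vectors supported on `D` -/
theorem pair_bound {K : Type} (D : Finset K) (R R' : Submodule (ZMod 2) (WW K))
    (h1 : ∀ z ∈ R, Sup D z) (h2 : ∀ z ∈ R', Sup D z) (h : ∀ z ∈ R, ∀ w ∈ R', Bf D z w = 0) :
    finrank (ZMod 2) R + finrank (ZMod 2) R' ≤ 2 * D.card := by
  have e1 : finrank (ZMod 2) (R.map (phi D)) = finrank (ZMod 2) R := by
    apply fin_map
    intro z hz h0
    apply Prod.ext
    · funext k
      by_cases hk : k ∈ D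
      · exact congrFun h0 (Sum.inl ⟨k, hk⟩)
      · exact (h1 z hz k hk).1
    · funext k
      by_cases hk : k ∈ D
      · exact congrFun h0 (Sum.inr ⟨k, hk⟩)
      · exact (h1 z hz k hk).2
  have e2 : finrank (ZMod 2) (R'.map (psi D)) = finrank (ZMod 2) R' := by
    apply fin_map
    intro z hz h0
    apply Prod.ext
    · funext k
      by_cases hk : k ∈ D
      · exact congrFun h0 (Sum.inr ⟨k, hk⟩)
      · exact (h2 z hz k hk).1
    · funext k
      by_cases hk : k ∈ D
      · exact congrFun h0 (Sum.inl ⟨k, hk⟩)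
      · exact (h2 z hz k hk).2
  have h3 := dot_bound _ (R.map (phi D)) (R'.map (psi D)) (by
    rintro _ ⟨z, hz, rfl⟩ _ ⟨w, hw, rfl⟩
    rw [phi_psi]
    exact h z hz w hw)
  rw [e1, e2, Fintype.card_sum, Fintype.card_coe] at h3
  omega

theorem t_ISO : S_ISO := by
  intro K _ J L hL h
  have := pair_bound J L L hL hL h
  omega

theorem Bf_add {K : Type} (J : Finset K) (z w w' : WW K) : Bf J z (w + w') = Bf J z w + Bf J z w' := by
  unfold Bf
  rw [← sum_add_distrib]
  apply sum_congr rfl
  intro k _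
  simp only [Prod.fst_add, Prod.snd_add, Pi.add_apply]
  ring

theorem Bf_smul {K : Type} (J : Finset K) (c : ZMod 2) (z w : WW K) :
    Bf J z (c • w) = c * Bf J z w := by
  unfold Bf
  rw [mul_sum]
  apply sum_congr rfl
  intro k _
  simp only [Prod.smul_fst, Prod.smul_snd, Pi.smul_apply, smul_eq_mul]
  ring

theorem Bf_comm {K : Type} (J : Finset K) (z w : WW K) : Bf J z w = Bf J w z := by
  unfold Bf
  apply sum_congr rfl
  intro k _
  ring

theorem Sup_add {K : Type} {J : Finset K} {z w : WW K} (h : Sup J z) (h' : Sup J w) :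
    Sup J (z + w) := by
  intro k hk
  simp only [Prod.fst_add, Prod.snd_add, Pi.add_apply, (h k hk).1, (h k hk).2, (h' k hk).1,
    (h' k hk).2, add_zero, and_self]

theorem Sup_smul {K : Type} {J : Finset K} {z : WW K} (c : ZMod 2) (h : Sup J z) :
    Sup J (c • z) := by
  intro k hk
  simp only [Prod.smul_fst, Prod.smul_snd, Pi.smul_apply, (h k hk).1, (h k hk).2, smul_zero,
    and_self]

/-- a maximal isotropic subspace -/
theorem maxi {K : Type} [Fintype K] (J : Finset K) (L : Submodule (ZMod 2) (WW K))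
    (hL : ∀ z ∈ L, Sup J z) (h : ∀ z ∈ L, ∀ w ∈ L, Bf J z w = 0)
    (hd : J.card ≤ finrank (ZMod 2) L) (w : WW K) (hw : Sup J w) (hz : ∀ z ∈ L, Bf J w z = 0) :
    w ∈ L := by
  let L' : Submodule (ZMod 2) (WW K) := L ⊔ Submodule.span (ZMod 2) {w}
  have hmem : ∀ x ∈ L', ∃ z ∈ L, ∃ c : ZMod 2, x = z + c • w := by
    intro x hx
    obtain ⟨z, hz, y, hy, rfl⟩ := Submodule.mem_sup.1 hx
    obtain ⟨c, rfl⟩ := Submodule.mem_span_singleton.1 hy
    exact ⟨z, hz, c, rfl⟩
  have h1 := pair_bound J L L' hL (by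
    intro x hx
    obtain ⟨z, hz, c, rfl⟩ := hmem x hx
    exact Sup_add (hL z hz) (Sup_smul c hw)) (by
    intro z hzL x hx
    obtain ⟨z', hz', c, rfl⟩ := hmem x hx
    rw [Bf_add, Bf_smul, h z hzL z' hz', Bf_comm, hz z hzL, mul_zero, add_zero])
  have hle : L ≤ L' := le_sup_left
  have h2 := Submodule.finrank_mono hle
  have h3 : L = L' := Submodule.eq_of_le_of_finrank_eq hle (by omega)
  rw [h3]
  exact Submodule.mem_sup_right (Submodule.mem_span_singleton_self w)

/-- the restriction as a linear map -/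
noncomputable def rho {K : Type} (D : Finset K) : WW K →ₗ[ZMod 2] WW K where
  toFun := res D
  map_add' x y := by
    apply Prod.ext <;> funext k <;>
    simp only [res, Prod.fst_add, Prod.snd_add, Pi.add_apply] <;> split_ifs <;> simp
  map_smul' c x := by
    apply Prod.ext <;> funext k <;>
    simp only [res, Prod.smul_fst, Prod.smul_snd, Pi.smul_apply, RingHom.id_apply] <;>
    split_ifs <;> simp

theorem Sup_res {K : Type} (D : Finset K) (z : WW K) : Sup D (res D z) := by
  intro k hk
  simp only [res, if_neg hk, and_self]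

theorem Bf_res {K : Type} (D : Finset K) (z w : WW K) : Bf D (res D z) (res D w) = Bf D z w := by
  unfold Bf
  apply sum_congr rfl
  intro k hk
  simp only [res, if_pos hk]

theorem Bf_sub {K : Type} (J D : Finset K) (hDJ : D ⊆ J) (z w : WW K) (hz : Sup D z) :
    Bf J z w = Bf D z w := by
  unfold Bf
  symm
  apply sum_subset hDJ
  intro k _ hk
  rw [(hz k hk).1, (hz k hk).2, zero_mul, mul_zero, add_zero]

theorem dec_one {K : Type} [Fintype K] (J D : Finset K) (hDJ : D ⊆ J)
    (L : Submodule (ZMod 2) (WW K)) (hL : ∀ z ∈ L, Sup J z)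
    (h : ∀ z ∈ L, ∀ w ∈ L, Bf J z w = 0) (hd : finrank (ZMod 2) L = J.card) :
    D.card ≤ finrank (ZMod 2) (L.map (rho D)) ∧
    (finrank (ZMod 2) (L.map (rho D)) ≤ D.card → ∀ z ∈ L, res D z ∈ L) := by
  have hrn : finrank (ZMod 2) (L.map (rho D)) + finrank (ZMod 2) (L ⊓ LinearMap.ker (rho D) :
      Submodule (ZMod 2) (WW K)) = finrank (ZMod 2) L := by
    have h1 := LinearMap.finrank_range_add_finrank_ker ((rho D).domRestrict L)
    rw [LinearMap.range_domRestrict] at h1
    have h2 : finrank (ZMod 2) (LinearMap.ker ((rho D).domRestrict L)) =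
        finrank (ZMod 2) (L ⊓ LinearMap.ker (rho D) : Submodule (ZMod 2) (WW K)) := by
      have e : (LinearMap.ker ((rho D).domRestrict L)).map L.subtype = L ⊓ LinearMap.ker (rho D) := by
        ext x
        constructor
        · rintro ⟨⟨y, hy⟩, hy2, rfl⟩
          exact ⟨hy, hy2⟩
        · rintro ⟨hx, hx2⟩
          exact ⟨⟨x, hx⟩, hx2, rfl⟩
      rw [← e]
      symm
      apply fin_map
      intro x _ hx
      exact Subtype.ext hx
    omega
  have hsup : ∀ z ∈ (L ⊓ LinearMap.ker (rho D) : Submodule (ZMod 2) (WW K)), Sup (J \ D) z := by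
    rintro z ⟨hz, hz2⟩ k hk
    by_cases hkJ : k ∈ J
    · have hkD : k ∈ D := by
        by_contra hc
        exact hk (mem_sdiff.2 ⟨hkJ, hc⟩)
      have h0 : res D z = 0 := hz2
      have a := congrFun (congrArg Prod.fst h0) k
      have b := congrFun (congrArg Prod.snd h0) k
      simp only [res, if_pos hkD] at a b
      exact ⟨a, b⟩
    · exact hL z hz k hkJ
  have hiso : ∀ z ∈ (L ⊓ LinearMap.ker (rho D) : Submodule (ZMod 2) (WW K)),
      ∀ w ∈ (L ⊓ LinearMap.ker (rho D) : Submodule (ZMod 2) (WW K)), Bf (J \ D) z w = 0 := by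
    intro z hz w hw
    rw [← Bf_sub J (J \ D) sdiff_subset z w (hsup z hz)]
    exact h z hz.1 w hw.1
  have hk := t_ISO K (J \ D) _ hsup hiso
  have hcard : (J \ D).card = J.card - D.card := card_sdiff_of_subset hDJ
  have hDc : D.card ≤ J.card := card_le_card hDJ
  refine ⟨by omega, ?_⟩
  intro hle z hz
  have hw : z - res D z ∈ (L ⊓ LinearMap.ker (rho D) : Submodule (ZMod 2) (WW K)) := by
    apply maxi (J \ D) _ hsup hiso (by omega)
    · intro k hk
      by_cases hkD : k ∈ D
      · simp only [Prod.fst_sub, Prod.snd_sub, Pi.sub_apply, res, if_pos hkD, sub_self, and_self]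
      · have hkJ : k ∉ J := fun h' => hk (mem_sdiff.2 ⟨h', hkD⟩)
        simp only [Prod.fst_sub, Prod.snd_sub, Pi.sub_apply, res, if_neg hkD, sub_zero]
        exact hL z hz k hkJ
    · intro l hl
      have e1 : Bf (J \ D) (z - res D z) l = Bf (J \ D) z l := by
        unfold Bf
        apply sum_congr rfl
        intro k hk
        have hkD : k ∉ D := (mem_sdiff.1 hk).2
        simp only [Prod.fst_sub, Prod.snd_sub, Pi.sub_apply, res, if_neg hkD, sub_zero]
      rw [e1, Bf_comm, ← Bf_sub J (J \ D) sdiff_subset l z (hsup l hl), Bf_comm]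
      exact h z hz l hl.1
  have : res D z = z - (z - res D z) := by rw [sub_sub_cancel]
  rw [this]
  exact L.sub_mem hz hw.1

theorem t_DEC : S_DEC := by
  intro K _ J J' L L' hL hL' h h' hLL hd hd'
  set D := J ∩ J' with hD
  have hDJ : D ⊆ J := inter_subset_left
  have hDJ' : D ⊆ J' := inter_subset_right
  obtain ⟨a1, a2⟩ := dec_one J D hDJ L hL h hd
  obtain ⟨b1, b2⟩ := dec_one J' D hDJ' L' hL' h' hd'
  have hsR : ∀ z ∈ L.map (rho D), Sup D z := by
    rintro _ ⟨z, _, rfl⟩
    exact Sup_res D z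
  have hsR' : ∀ z ∈ L'.map (rho D), Sup D z := by
    rintro _ ⟨z, _, rfl⟩
    exact Sup_res D z
  have hRR : ∀ z ∈ L.map (rho D), ∀ w ∈ L'.map (rho D), Bf D z w = 0 := by
    rintro _ ⟨z, hz, rfl⟩ _ ⟨w, hw, rfl⟩
    show Bf D (res D z) (res D w) = 0
    rw [Bf_res]
    exact hLL z hz w hw
  have hb := pair_bound D _ _ hsR hsR' hRR
  have a3 := a2 (by omega)
  have b3 := b2 (by omega)
  -- R is isotropic for D
  have hiso : ∀ z ∈ L.map (rho D), ∀ w ∈ L.map (rho D), Bf D z w = 0 := by
    rintro _ ⟨z, hz, rfl⟩ _ ⟨w, hw, rfl⟩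
    show Bf D (res D z) (res D w) = 0
    rw [← Bf_sub J D hDJ _ _ (Sup_res D z)]
    exact h _ (a3 z hz) _ (a3 w hw)
  have hle : L'.map (rho D) ≤ L.map (rho D) := by
    intro w hw
    apply maxi D _ hsR hiso (by omega) w (hsR' w hw)
    intro z hz
    rw [Bf_comm]
    exact hRR z hz w hw
  have heq : L'.map (rho D) = L.map (rho D) := Submodule.eq_of_le_of_finrank_eq hle (by omega)
  intro z hz
  refine ⟨a3 z hz, ?_⟩
  have hm : res D z ∈ L'.map (rho D) := by
    rw [heq]
    exact ⟨z, hz, rfl⟩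
  obtain ⟨y, hy, hy2⟩ := hm
  rw [← hy2]
  exact b3 y hy

end Q187.LP
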