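import Pool.Agent.Q187.LP.FOU

set_option autoImplicit false

open scoped Classical

namespace Q187.LP

open Finset Module Q283.LP

section
variable {U I N M : Type} [Fintype U] [Fintype I] [Fintype N] [Fintype M]

/-- the sum in the condition of a pair -/
noncomputable def PP (e : M → N → ZMod 2) (t : I → N → ZMod 2) (r : M → ℕ)
    (x c : KK r → U ⊕ I → ZMod 2) (p q : I) : ZMod 2 :=
  ∑ k ∈ Jt e (fun k : KK r => k.1) (t p) ∩ Jt e (fun k : KK r => k.1) (t q),
    (x k (.inr p) + x k (.inr q)) * (c k (.inr p) + c k (.inr q))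

/-- coefficient -/
noncomputable def cf (e : M → N → ZMod 2) (b : M → U → Prop) (t : I → N → ZMod 2) (r : M → ℕ)
    (x c : KK r → U ⊕ I → ZMod 2) (p q : I) : ZMod 2 :=
  ∑ k : KK r, if FF e b t k.1 (.inr p) ∧ FF e b t k.1 (.inr q) then
    c k (.inr p) * (x k (.inr q) + x k (.inr p)) else 0

theorem cf_add (e : M → N → ZMod 2) (b : M → U → Prop) (t : I → N → ZMod 2) (r : M → ℕ)
    (x c : KK r → U ⊕ I → ZMod 2) (p q : I) :
    cf e b t r x c p q + cf e b t r x c q p = PP e t r x c p q := by
  unfold cf PP
  rw [← sum_add_distrib]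
  have e1 : Jt e (fun k : KK r => k.1) (t p) ∩ Jt e (fun k : KK r => k.1) (t q) =
      univ.filter (fun k : KK r => FF e b t k.1 (.inr p) ∧ FF e b t k.1 (.inr q)) := by
    ext k
    unfold Jt
    rw [mem_inter, mem_filter, mem_filter, mem_filter]
    exact ⟨fun h => ⟨mem_univ _, h.1.2, h.2.2⟩, fun h => ⟨⟨mem_univ _, h.2.1⟩, mem_univ _, h.2.2⟩⟩
  rw [e1, sum_filter]
  apply sum_congr rfl
  intro k _
  by_cases h : FF e b t k.1 (.inr p) ∧ FF e b t k.1 (.inr q)
  · rw [if_pos h, if_pos h.symm, if_pos h]
    ring
  · rw [if_neg h, if_neg (fun h' => h h'.symm), if_neg h, add_zero]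

theorem row_diff (g : Gr U I) (F : U ⊕ I → Prop) (α : I → I → ZMod 2) (x : U ⊕ I → ZMod 2)
    (v : U ⊕ I) : g.row α F x v = g.row 0 F x v + (match v with
      | .inl _ => 0
      | .inr p => ∑ q : I, if F (.inr q) then (α p q + α q p) * (x (.inr q) + x (.inr p)) else 0) := by
  unfold Gr.row
  rcases v with u | p
  · simp only [add_zero]
    congr 1
    apply sum_congr rfl
    rintro (w | q) _ <;> rfl
  · simp only
    rw [sum_filter, sum_filter, Fintype.sum_sum_type, Fintype.sum_sum_type]
    have e1 : ∀ w : U, (if F (.inl w) then g.sg α (.inr p) (.inl w) * (x (.inl w) + x (.inr p)) else 0)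
        = if F (.inl w) then g.sg 0 (.inr p) (.inl w) * (x (.inl w) + x (.inr p)) else 0 :=
      fun w => rfl
    have e2 : ∀ q : I, (if F (.inr q) then g.sg 0 (.inr p) (.inr q) * (x (.inr q) + x (.inr p)) else 0)
        = 0 := by
      intro q
      have : g.sg 0 (.inr p) (.inr q) = 0 := by
        show (0 : ZMod 2) + 0 = 0
        rw [add_zero]
      rw [this, zero_mul, ite_self]
    have e3 : ∀ q : I, (if F (.inr q) then g.sg α (.inr p) (.inr q) * (x (.inr q) + x (.inr p)) else 0)
        = if F (.inr q) then (α p q + α q p) * (x (.inr q) + x (.inr p)) else 0 := fun q => rfl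
    rw [sum_congr rfl (fun w _ => e1 w), sum_congr rfl (fun q _ => e2 q),
      sum_congr rfl (fun q _ => e3 q), sum_const_zero]
    ring

theorem th_diff (g : Gr U I) (e : M → N → ZMod 2) (b : M → U → Prop) (t : I → N → ZMod 2)
    (r : M → ℕ) (x c : KK r → U ⊕ I → ZMod 2) (hc : Sx g e b t r c) (α : I → I → ZMod 2) :
    th g e b t r α x c = th g e b t r 0 x c + ∑ p : I, ∑ q : I, α p q * PP e t r x c p q := by
  have e1 : th g e b t r α x c = th g e b t r 0 x c +
      ∑ k : KK r, ∑ p : I, ∑ q : I, (α p q + α q p) *
        (if FF e b t k.1 (.inr p) ∧ FF e b t k.1 (.inr q) then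
          c k (.inr p) * (x k (.inr q) + x k (.inr p)) else 0) := by
    unfold th
    rw [← sum_add_distrib]
    apply sum_congr rfl
    intro k _
    rw [Fintype.sum_sum_type, Fintype.sum_sum_type, add_assoc, ← sum_add_distrib]
    congr 1
    · apply sum_congr rfl
      intro u _
      rw [row_diff g _ α, add_zero]
    · apply sum_congr rfl
      intro p _
      rw [row_diff g _ α, mul_add]
      congr 1
      rw [mul_sum]
      apply sum_congr rfl
      intro q _
      by_cases hp : FF e b t k.1 (.inr p)
      · by_cases hq : FF e b t k.1 (.inr q)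
        · rw [if_pos hq, if_pos ⟨hp, hq⟩]
          ring
        · rw [if_neg hq, if_neg (fun h => hq h.2), mul_zero, mul_zero]
      · have : c k (.inr p) = 0 := hc k (.inr p) (fun h => hp h.1)
        rw [this, zero_mul, if_neg (fun h => hp h.1), mul_zero]
  rw [e1]
  congr 1
  have e2 : ∑ k : KK r, ∑ p : I, ∑ q : I, (α p q + α q p) *
        (if FF e b t k.1 (.inr p) ∧ FF e b t k.1 (.inr q) then
          c k (.inr p) * (x k (.inr q) + x k (.inr p)) else 0) =
      ∑ p : I, ∑ q : I, (α p q + α q p) * cf e b t r x c p q := by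
    rw [sum_comm]
    apply sum_congr rfl
    intro p _
    rw [sum_comm]
    apply sum_congr rfl
    intro q _
    unfold cf
    rw [mul_sum]
  rw [e2]
  have e3 : ∑ p : I, ∑ q : I, (α p q + α q p) * cf e b t r x c p q =
      ∑ p : I, ∑ q : I, α p q * cf e b t r x c p q +
        ∑ p : I, ∑ q : I, α q p * cf e b t r x c p q := by
    rw [← sum_add_distrib]
    apply sum_congr rfl
    intro p _
    rw [← sum_add_distrib]
    apply sum_congr rfl
    intro q _
    ring
  rw [e3, sum_comm (f := fun p q => α q p * cf e b t r x c p q), ← sum_add_distrib]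
  apply sum_congr rfl
  intro p _
  rw [← sum_add_distrib]
  apply sum_congr rfl
  intro q _
  rw [← cf_add e b t r x c p q]
  ring

theorem t_ALP : S_ALP := by
  intro U I N M _ _ _ _ g e b t r x c hx hc
  constructor
  · intro hP α
    rw [th_diff g e b t r x c hc]
    have : ∀ p q, PP e t r x c p q = 0 := hP
    simp only [this, mul_zero, sum_const_zero, add_zero]
  · intro hP
    unfold Pc at hP
    push Not at hP
    obtain ⟨p0, q0, h⟩ := hP
    have h' : PP e t r x c p0 q0 = 1 := ne_zero_one _ h
    let s : I → I → ZMod 2 := Pi.single p0 (Pi.single q0 1)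
    have hs : ∀ p q, s p q = if p = p0 ∧ q = q0 then 1 else 0 := by
      intro p q
      simp only [s, Pi.single_apply]
      by_cases hk : p = p0
      · subst hk
        simp [Pi.single_apply]
      · simp [hk]
    have hth : ∀ α, th g e b t r (α + s) x c = th g e b t r α x c + 1 := by
      intro α
      rw [th_diff g e b t r x c hc, th_diff g e b t r x c hc α]
      simp only [Pi.add_apply, add_mul, sum_add_distrib]
      rw [← add_assoc]
      congr 1
      have e1 : ∀ p q, s p q * PP e t r x c p q = if p = p0 ∧ q = q0 then 1 else 0 := by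
        intro p q
        rw [hs]
        split_ifs with hc
        · rw [hc.1, hc.2, h', one_mul]
        · rw [zero_mul]
      simp only [e1]
      rw [sum_eq_single p0, sum_eq_single q0]
      · simp
      · intro v _ hv
        simp [hv]
      · intro h; exact absurd (mem_univ _) h
      · intro k _ hk
        simp [hk]
      · intro h; exact absurd (mem_univ _) h
    have hss : s + s = 0 := by
      funext k v
      exact add_self_two _
    apply sum_involution (fun α _ => α + s)
    · intro α _
      rw [hth, sn_add_one]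
      ring
    · intro α _ _ he
      have h4 : α p0 q0 + s p0 q0 = α p0 q0 := congrFun (congrFun he p0) q0
      rw [hs] at h4
      simp at h4
    · intro α _
      exact mem_univ _
    · intro α _
      show α + s + s = α
      rw [add_assoc, hss, add_zero]

end

end Q187.LP
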