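import Pool.Agent.Q283.LP.Stm3
import Pool.Agent.Q98.LP.STR
import Pool.Agent.Q203.LP.CNF

/-! # Project LP (helper283), second version: few pairs are not full (adapted from the proof of
helper203) -/

set_option autoImplicit false
set_option linter.unusedVariables false

open scoped Classical

namespace Q187.LP.CNF2

open Finset Module Q283.LP Pool.Agent.Q203.LP

theorem t_CNF2 (h1 : S_ISO) : S_CNF2 := by
  intro N M _ _ e r hne
  set K := KK r with hK
  set q : ℝ := 1 - (2 ^ Fintype.card (KK r) : ℝ)⁻¹ with hq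
  have hpow : (1 : ℝ) ≤ 2 ^ Fintype.card (KK r) := one_le_pow₀ (by norm_num)
  have hq0 : 0 ≤ q := by
    have : (2 ^ Fintype.card (KK r) : ℝ)⁻¹ ≤ 1 := inv_le_one_of_one_le₀ hpow
    linarith
  have hq1 : q < 1 := by
    have : (0 : ℝ) < (2 ^ Fintype.card (KK r) : ℝ)⁻¹ := by positivity
    linarith
  obtain ⟨C, hC⟩ := exists_pow_lt_of_lt_one
    (show (0 : ℝ) < (2 ^ (2 * Fintype.card (KK r)) : ℝ)⁻¹ by positivity) hq1
  refine ⟨C, fun δ hδ => ?_⟩
  have hfam : (0 : ℝ) < Fintype.card ((N → ZMod 2) → Finset (WW (KK r))) := by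
    exact_mod_cast Fintype.card_pos
  obtain ⟨R, hR⟩ := exists_pow_lt_of_lt_one
    (show (0 : ℝ) < δ / Fintype.card ((N → ZMod 2) → Finset (WW (KK r))) by positivity) hq1
  refine ⟨R, fun U I _ _ g b t hT => ?_⟩
  set F := (univ.filter fun y : (KK r → U ⊕ I → ZMod 2) × (KK r → U ⊕ I → ZMod 2) =>
    Sx g e b t r y.1 ∧ Sx g e b t r y.2 ∧ Pc e t r y.1 y.2 ∧ ¬ Fl e t r y.1 y.2) with hF
  have hfib : F.card = ∑ Y : (N → ZMod 2) → Finset (WW (KK r)),
      (F.filter fun y => Zf t r y.1 y.2 = Y).card :=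
    card_eq_sum_card_fiberwise fun y _ => mem_univ _
  have hB : ∀ Y : (N → ZMod 2) → Finset (WW (KK r)),
      ((F.filter fun y => Zf t r y.1 y.2 = Y).card : ℝ) ≤ 2 ^ Ns g e b t r * q ^ R := by
    intro Y
    rcases (F.filter fun y => Zf t r y.1 y.2 = Y).eq_empty_or_nonempty with h0 | ⟨y, hy⟩
    · rw [h0]
      simp only [card_empty, Nat.cast_zero]
      positivity
    · rw [mem_filter, hF, mem_filter] at hy
      obtain ⟨⟨-, hx, hc, hP, hFl⟩, hZ⟩ := hy
      have hfa := fa_Zf g e b t r hT.pas y.1 y.2 hx hc hP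
      have hstr := Q98.LP.card_le h1 hfa
      rw [hZ] at hstr
      unfold Fl at hFl
      rw [hZ] at hFl
      push Not at hFl
      obtain ⟨s, hs⟩ := hFl
      have hc1 := card_fib g e b t r (F.filter fun y => Zf t r y.1 y.2 = Y)
        (fun z hz => by
          rw [mem_filter, hF, mem_filter] at hz
          exact ⟨hz.1.2.1, hz.1.2.2.1⟩) Y (fun z hz => (mem_filter.1 hz).2)
      have hc2 := prod_bound g e b t r Y hstr s hs (C * Fintype.card U + R) (hT.act s)
      have hc3 : ((F.filter fun y => Zf t r y.1 y.2 = Y).card : ℝ) ≤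
          2 ^ (2 * Fintype.card (KK r) * Fintype.card U) *
            ((∏ p : I, if g.aI p then (Y (t p)).card else 1 : ℕ) : ℝ) := by
        exact_mod_cast hc1
      refine hc3.trans ?_
      have hU : (2 : ℝ) ^ (2 * Fintype.card (KK r) * Fintype.card U) *
          q ^ (C * Fintype.card U) ≤ 1 := by
        rw [pow_mul (2 : ℝ) (2 * Fintype.card (KK r)) (Fintype.card U),
          pow_mul q C (Fintype.card U), ← mul_pow]
        refine pow_le_one₀ (by positivity) ?_
        have h4 : (0 : ℝ) < 2 ^ (2 * Fintype.card (KK r)) := by positivity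
        calc (2 : ℝ) ^ (2 * Fintype.card (KK r)) * q ^ C
            ≤ 2 ^ (2 * Fintype.card (KK r)) * (2 ^ (2 * Fintype.card (KK r)))⁻¹ := by gcongr
          _ = 1 := mul_inv_cancel₀ h4.ne'
      calc (2 : ℝ) ^ (2 * Fintype.card (KK r) * Fintype.card U) *
            ((∏ p : I, if g.aI p then (Y (t p)).card else 1 : ℕ) : ℝ)
          ≤ 2 ^ (2 * Fintype.card (KK r) * Fintype.card U) *
            (2 ^ Ns g e b t r * q ^ (C * Fintype.card U + R)) := by gcongr
        _ = (2 ^ (2 * Fintype.card (KK r) * Fintype.card U) * q ^ (C * Fintype.card U)) *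
            (2 ^ Ns g e b t r * q ^ R) := by rw [pow_add]; ring
        _ ≤ 1 * (2 ^ Ns g e b t r * q ^ R) := by
            refine mul_le_mul_of_nonneg_right hU ?_
            positivity
        _ = _ := one_mul _
  rw [hfib]
  push_cast
  calc ∑ Y : (N → ZMod 2) → Finset (WW (KK r)),
        ((F.filter fun y => Zf t r y.1 y.2 = Y).card : ℝ)
      ≤ ∑ _Y : (N → ZMod 2) → Finset (WW (KK r)), 2 ^ Ns g e b t r * q ^ R :=
        sum_le_sum fun Y _ => hB Y
    _ = Fintype.card ((N → ZMod 2) → Finset (WW (KK r))) * (2 ^ Ns g e b t r * q ^ R) := by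
        rw [sum_const, card_univ, nsmul_eq_mul]
    _ = (Fintype.card ((N → ZMod 2) → Finset (WW (KK r))) * q ^ R) * 2 ^ Ns g e b t r := by ring
    _ ≤ δ * 2 ^ Ns g e b t r := by
        refine mul_le_mul_of_nonneg_right ?_ (by positivity)
        rw [lt_div_iff₀ hfam] at hR
        linarith

end Q187.LP.CNF2
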