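import Pool.Agent.Q283.LP.Stm

set_option autoImplicit false

open scoped Classical

namespace Q187.LP

open Finset Module Q283.LP

theorem sn_zero : sn 0 = 1 := by simp [sn]

theorem sn_add_one (a : ZMod 2) : sn (a + 1) = - sn a := by
  have h : ∀ a : ZMod 2, (if a + 1 = 0 then (1 : ℤ) else -1) = - (if a = 0 then (1 : ℤ) else -1) := by
    decide
  unfold sn
  convert h a

theorem ne_zero_one (a : ZMod 2) (h : a ≠ 0) : a = 1 := by
  revert h
  revert a
  decide

theorem add_self_two (a : ZMod 2) : a + a = 0 := by
  revert a
  decide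

section
variable {U I N M : Type} [Fintype U] [Fintype I] [Fintype N] [Fintype M]

/-- number of the supported vectors -/
theorem card_Sx (g : Gr U I) (e : M → N → ZMod 2) (b : M → U → Prop) (t : I → N → ZMod 2)
    (r : M → ℕ) : (univ.filter (Sx g e b t r)).card = 2 ^ Ns g e b t r := by
  have e1 : univ.filter (Sx g e b t r) = Fintype.piFinset (fun k : KK r =>
      Fintype.piFinset (fun v : U ⊕ I =>
        if FF e b t k.1 v ∧ g.act v then (univ : Finset (ZMod 2)) else {0})) := by
    ext x
    simp only [mem_filter, mem_univ, true_and, Fintype.mem_piFinset]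
    constructor
    · intro h k v
      split_ifs with hc
      · exact mem_univ _
      · exact mem_singleton.2 (h k v hc)
    · intro h k v hc
      have := h k v
      rw [if_neg hc] at this
      exact mem_singleton.1 this
  rw [e1, Fintype.card_piFinset]
  simp only [Fintype.card_piFinset]
  have e2 : ∀ (k : KK r) (v : U ⊕ I),
      (if FF e b t k.1 v ∧ g.act v then (univ : Finset (ZMod 2)) else {0}).card =
        if FF e b t k.1 v ∧ g.act v then 2 else 1 := by
    intro k v
    split_ifs
    · rfl
    · rfl
  simp only [e2]
  rw [← Finset.prod_product']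
  rw [Finset.prod_ite, prod_const, prod_const_one, mul_one]
  rfl

theorem sum_c (g : Gr U I) (e : M → N → ZMod 2) (b : M → U → Prop) (t : I → N → ZMod 2)
    (r : M → ℕ) (α : I → I → ZMod 2) (x : KK r → U ⊕ I → ZMod 2) :
    ∑ c ∈ univ.filter (Sx g e b t r), sn (th g e b t r α x c) =
      if (∀ (k : KK r) (v : U ⊕ I), FF e b t k.1 v → g.act v → g.row α (FF e b t k.1) (x k) v = 0)
        then 2 ^ Ns g e b t r else 0 := by
  split_ifs with h
  · have e1 : ∀ c ∈ univ.filter (Sx g e b t r), sn (th g e b t r α x c) = 1 := by
      intro c hc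
      have hc' : Sx g e b t r c := (mem_filter.1 hc).2
      have : th g e b t r α x c = 0 := by
        unfold th
        apply sum_eq_zero
        intro k _
        apply sum_eq_zero
        intro v _
        by_cases hv : FF e b t k.1 v ∧ g.act v
        · rw [h k v hv.1 hv.2, mul_zero]
        · rw [hc' k v hv, zero_mul]
      rw [this, sn_zero]
    rw [sum_congr rfl e1, sum_const, card_Sx]
    simp
  · push Not at h
    obtain ⟨k0, v0, h1, h2, h3⟩ := h
    have h3' := ne_zero_one _ h3
    let s : KK r → U ⊕ I → ZMod 2 := Pi.single k0 (Pi.single v0 1)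
    have hs : ∀ k v, s k v = if k = k0 ∧ v = v0 then 1 else 0 := by
      intro k v
      simp only [s, Pi.single_apply]
      by_cases hk : k = k0
      · subst hk
        simp [Pi.single_apply]
      · simp [hk]
    have hth : ∀ c, th g e b t r α x (c + s) = th g e b t r α x c + 1 := by
      intro c
      unfold th
      simp only [Pi.add_apply, add_mul, sum_add_distrib]
      congr 1
      have e1 : ∀ k v, s k v * g.row α (FF e b t k.1) (x k) v = if k = k0 ∧ v = v0 then 1 else 0 := by
        intro k v
        rw [hs]
        split_ifs with hc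
        · rw [hc.1, hc.2, h3', one_mul]
        · rw [zero_mul]
      simp only [e1]
      rw [sum_eq_single k0, sum_eq_single v0]
      · simp
      · intro v _ hv
        simp [hv]
      · intro h; exact absurd (mem_univ _) h
      · intro k _ hk
        simp [hk]
      · intro h; exact absurd (mem_univ _) h
    have hss : s + s = 0 := by
      funext k v
      exact add_self_two _
    apply sum_involution (fun c _ => c + s)
    · intro c hc
      rw [hth, sn_add_one]
      ring
    · intro c hc _ he
      have h4 : c k0 v0 + s k0 v0 = c k0 v0 := congrFun (congrFun he k0) v0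
      rw [hs] at h4
      simp at h4
    · intro c hc
      rw [mem_filter] at hc ⊢
      refine ⟨mem_univ _, ?_⟩
      intro k v hkv
      show c k v + s k v = 0
      rw [hc.2 k v hkv, hs]
      rw [if_neg, add_zero]
      rintro ⟨rfl, rfl⟩
      exact hkv ⟨h1, h2⟩
    · intro c hc
      show c + s + s = c
      rw [add_assoc, hss, add_zero]

theorem t_FOU : S_FOU := by
  intro U I N M _ _ _ _ g e b t r α
  simp only [sum_c]
  rw [← sum_filter, sum_const, nsmul_eq_mul]
  congr 1
  norm_cast
  unfold NT
  congr 1
  ext x
  simp only [mem_filter, mem_univ, true_and]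
  constructor
  · rintro ⟨h1, h2⟩
    refine ⟨⟨fun k v hv => ?_, h2⟩, fun k v hF ha => ?_⟩
    · exact (mem_Ke.1 (h1 k)).1 v hv
    · exact (mem_Ke.1 (h1 k)).2 v hF ha
  · rintro ⟨⟨h1, h2⟩, h3⟩
    exact ⟨fun k => mem_Ke.2 ⟨h1 k, h3 k⟩, h2⟩

end

end Q187.LP
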