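import Pool.Agent.Q283.LP.Stm3
import Pool.Agent.Q187.LP.FOU

/-!
# Project LP: Gauss sum bound (job LP-GS of helper283)
-/

set_option autoImplicit false

open scoped Classical

namespace Q187.LP.GS

open Finset Module Q283.LP

theorem sn_add (a b : ZMod 2) : sn (a + b) = sn a * sn b := by
  have h : ∀ a b : ZMod 2, (if a + b = 0 then (1 : ℤ) else -1) =
      (if a = 0 then (1 : ℤ) else -1) * (if b = 0 then (1 : ℤ) else -1) := by
    decide
  unfold sn
  convert h a b

theorem sn_sum {ι : Type} (s : Finset ι) (f : ι → ZMod 2) :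
    sn (∑ i ∈ s, f i) = ∏ i ∈ s, sn (f i) := by
  induction s using Finset.induction_on with
  | empty => simp [sn]
  | insert a s ha ih => rw [sum_insert ha, prod_insert ha, sn_add, ih]

theorem sn_abs (a : ZMod 2) : |sn a| = 1 := by
  unfold sn
  split_ifs <;> simp

theorem sn_cases (a : ZMod 2) : sn a = 1 ∨ sn a = -1 := by
  unfold sn
  split_ifs <;> simp

section
variable {U I N M : Type} [Fintype U] [Fintype I] [Fintype N] [Fintype M]

theorem row_inl (g : Gr U I) (F : U ⊕ I → Prop) (x : U ⊕ I → ZMod 2) (u : U) :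
    g.row 0 F x (.inl u) = (∑ u' ∈ univ.filter (fun u' => F (.inl u')),
      g.ν u u' * (x (.inl u') + x (.inl u)) + g.fU u * x (.inl u)) +
      ∑ p, if F (.inr p) then g.lb p u * (x (.inr p) + x (.inl u)) else 0 := by
  unfold Gr.row
  rw [sum_filter, Fintype.sum_sum_type, sum_filter]
  show _ + _ + g.fU u * x (.inl u) = _
  have h1 : ∀ a : U, g.sg 0 (.inl u) (.inl a) = g.ν u a := fun a => rfl
  have h2 : ∀ a : I, g.sg 0 (.inl u) (.inr a) = g.lb a u := fun a => rfl
  simp only [h1, h2]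
  ring

theorem row_inr (g : Gr U I) (F : U ⊕ I → Prop) (x : U ⊕ I → ZMod 2) (p : I) :
    g.row 0 F x (.inr p) = ∑ u ∈ univ.filter (fun u' => F (.inl u')),
      g.lb p u * (x (.inl u) + x (.inr p)) + g.fI p * x (.inr p) := by
  unfold Gr.row
  rw [sum_filter, Fintype.sum_sum_type, sum_filter]
  show _ + _ + g.fI p * x (.inr p) = _
  have h1 : ∀ a : U, g.sg 0 (.inr p) (.inl a) = g.lb p a := fun a => rfl
  have h2 : ∀ a : I, g.sg 0 (.inr p) (.inr a) = 0 := by
    intro a
    show (0 : I → I → ZMod 2) p a + (0 : I → I → ZMod 2) a p = 0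
    simp
  simp only [h1, h2, zero_mul, ite_self, sum_const_zero, add_zero]

/-- small part of the exponent -/
noncomputable def S0 (g : Gr U I) (b : M → U → Prop) (r : M → ℕ) (a a' : KK r → U → ZMod 2) :
    ZMod 2 :=
  ∑ k : KK r, ∑ u, a' k u * (∑ u' ∈ univ.filter (b k.1), g.ν u u' * (a k u' + a k u) +
    g.fU u * a k u)

/-- part of the exponent of the large index `p` -/
noncomputable def Tp (g : Gr U I) (e : M → N → ZMod 2) (b : M → U → Prop) (t : I → N → ZMod 2)
    (r : M → ℕ) (p : I) (a a' : KK r → U → ZMod 2) (z : WW (KK r)) : ZMod 2 :=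
  ∑ k : KK r, ((∑ u, a' k u * (if ∑ i, e k.1 i * t p i = 1 then g.lb p u * (z.1 k + a k u)
    else 0)) + z.2 k * (∑ u ∈ univ.filter (b k.1), g.lb p u * (a k u + z.1 k) + g.fI p * z.1 k))

theorem th_split (g : Gr U I) (e : M → N → ZMod 2) (b : M → U → Prop) (t : I → N → ZMod 2)
    (r : M → ℕ) (x c : KK r → U ⊕ I → ZMod 2) :
    th g e b t r 0 x c = S0 g b r (fun k u => x k (.inl u)) (fun k u => c k (.inl u)) +
      ∑ p, Tp g e b t r p (fun k u => x k (.inl u)) (fun k u => c k (.inl u))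
        (fun k => x k (.inr p), fun k => c k (.inr p)) := by
  unfold th S0 Tp
  rw [sum_comm (s := (univ : Finset I)), ← sum_add_distrib]
  refine sum_congr rfl fun k _ => ?_
  rw [Fintype.sum_sum_type]
  simp only [row_inl, row_inr]
  rw [sum_add_distrib, ← add_assoc]
  congr 1
  rw [sum_comm (s := (univ : Finset I)), ← sum_add_distrib]
  refine sum_congr rfl fun u _ => ?_
  rw [mul_add, ← mul_sum]
  congr 2
  refine sum_congr rfl fun p _ => ?_
  exact if_congr Iff.rfl rfl rfl

/-- the second difference -/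
theorem Tp_dd (g : Gr U I) (e : M → N → ZMod 2) (b : M → U → Prop) (t : I → N → ZMod 2)
    (r : M → ℕ) (p : I) (a a' : KK r → U → ZMod 2) (z w : WW (KK r))
    (hz : Sup (Jt e (fun k : KK r => k.1) (t p)) z) (hw : Sup (Jt e (fun k : KK r => k.1) (t p)) w)
    (hQz : Qf (Jt e (fun k : KK r => k.1) (t p)) z = 0)
    (hQw : Qf (Jt e (fun k : KK r => k.1) (t p)) w = 0)
    (hQzw : Qf (Jt e (fun k : KK r => k.1) (t p)) (z + w) = 0) :
    Tp g e b t r p a a' (z + w) + Tp g e b t r p a a' z + Tp g e b t r p a a' w +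
      Tp g e b t r p a a' 0 = ∑ k ∈ Jt e (fun k : KK r => k.1) (t p),
        lj g b p k.1 * (z.1 k * w.2 k + w.1 k * z.2 k) := by
  have hch : ∀ s : ZMod 2, s + s = 0 := add_self_two
  set J := Jt e (fun k : KK r => k.1) (t p) with hJ
  have hB : ∑ k ∈ J, (z.1 k * w.2 k + w.1 k * z.2 k) = 0 := by
    have h1 : Qf J (z + w) = Qf J z + Qf J w + ∑ k ∈ J, (z.1 k * w.2 k + w.1 k * z.2 k) := by
      unfold Qf
      rw [← sum_add_distrib, ← sum_add_distrib]
      refine sum_congr rfl fun k _ => ?_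
      simp only [Prod.fst_add, Prod.snd_add, Pi.add_apply]
      ring
    rw [hQz, hQw, hQzw, zero_add, zero_add] at h1
    exact h1.symm
  have hB' : ∑ k ∈ J, (g.fI p) * (z.1 k * w.2 k + w.1 k * z.2 k) = 0 := by
    rw [← mul_sum, hB, mul_zero]
  rw [← add_zero (∑ k ∈ J, lj g b p k.1 * _), ← hB', ← sum_add_distrib]
  have hext : ∑ k ∈ J, (lj g b p k.1 * (z.1 k * w.2 k + w.1 k * z.2 k) +
      g.fI p * (z.1 k * w.2 k + w.1 k * z.2 k)) = ∑ k : KK r,
      (lj g b p k.1 * (z.1 k * w.2 k + w.1 k * z.2 k) +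
      g.fI p * (z.1 k * w.2 k + w.1 k * z.2 k)) := by
    apply sum_subset (subset_univ _)
    intro k _ hk
    rw [(hz k hk).1, (hz k hk).2]
    ring
  rw [hext]
  unfold Tp
  rw [← sum_add_distrib, ← sum_add_distrib, ← sum_add_distrib]
  refine sum_congr rfl fun k _ => ?_
  unfold lj
  -- the linear part
  have hl : ∀ s : ZMod 2, ∑ u ∈ univ.filter (b k.1), g.lb p u * (a k u + s) =
      ∑ u ∈ univ.filter (b k.1), g.lb p u * a k u + (∑ u ∈ univ.filter (b k.1), g.lb p u) * s := by
    intro s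
    rw [sum_mul, ← sum_add_distrib]
    exact sum_congr rfl fun u _ => by ring
  have hm : ∀ s : ZMod 2, (∑ u, a' k u * (if ∑ i, e k.1 i * t p i = 1 then
      g.lb p u * (s + a k u) else 0)) = (∑ u, a' k u * (if ∑ i, e k.1 i * t p i = 1 then
      g.lb p u * a k u else 0)) + (∑ u, a' k u * (if ∑ i, e k.1 i * t p i = 1 then
      g.lb p u else 0)) * s := by
    intro s
    rw [sum_mul, ← sum_add_distrib]
    refine sum_congr rfl fun u _ => ?_
    split_ifs
    · ring
    · ring
  simp only [hl, hm, Prod.fst_add, Prod.snd_add, Pi.add_apply, Prod.fst_zero, Prod.snd_zero,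
    Pi.zero_apply, mul_zero, add_zero, zero_mul]
  generalize (∑ u, a' k u * (if ∑ i, e k.1 i * t p i = 1 then g.lb p u * a k u else 0)) = A1
  generalize (∑ u, a' k u * (if ∑ i, e k.1 i * t p i = 1 then g.lb p u else 0)) = A2
  generalize ∑ u ∈ univ.filter (b k.1), g.lb p u * a k u = A3
  generalize ∑ u ∈ univ.filter (b k.1), g.lb p u = A4
  generalize z.1 k = z1
  generalize z.2 k = z2
  generalize w.1 k = w1
  generalize w.2 k = w2
  generalize g.fI p = f0
  have e1 : A1 + A2 * (z1 + w1) + (z2 + w2) * (A3 + A4 * (z1 + w1) + f0 * (z1 + w1)) +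
      (A1 + A2 * z1 + z2 * (A3 + A4 * z1 + f0 * z1)) +
      (A1 + A2 * w1 + w2 * (A3 + A4 * w1 + f0 * w1)) + A1 =
      (A4 * (z1 * w2 + w1 * z2) + f0 * (z1 * w2 + w1 * z2)) + (A1 + A1) + (A1 + A1) +
      (A2 * (z1 + w1) + A2 * (z1 + w1)) + ((z2 + w2) * A3 + (z2 + w2) * A3) +
      (z2 * (A4 * z1 + f0 * z1) + z2 * (A4 * z1 + f0 * z1)) +
      (w2 * (A4 * w1 + f0 * w1) + w2 * (A4 * w1 + f0 * w1)) := by ring
  rw [e1, hch, hch, hch, hch, hch]
  ring

end

theorem qf_self {K : Type} (J : Finset K) (v : WW K) (h : Qf (J ∩ J) (v + 0) = 0) :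
    Qf J v = 0 := by
  rwa [Finset.inter_self, add_zero] at h

/-- sums of signs -/
theorem sum_sn_le {α : Type} (Y : Finset α) (T : α → ZMod 2) :
    |∑ z ∈ Y, sn (T z)| ≤ (Y.card : ℤ) := by
  refine (abs_sum_le_sum_abs _ _).trans ?_
  simp only [sn_abs]
  simp

theorem sum_sn_lt {α : Type} (Y : Finset α) (T : α → ZMod 2) (z w : α) (hz : z ∈ Y) (hw : w ∈ Y)
    (h : T z ≠ T w) : |∑ z ∈ Y, sn (T z)| ≤ (Y.card : ℤ) - 1 := by
  have hzw : z ≠ w := fun h' => h (by rw [h'])
  have h1 : ∑ x ∈ Y, sn (T x) = sn (T z) + (sn (T w) + ∑ x ∈ (Y.erase z).erase w, sn (T x)) := by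
    rw [← add_sum_erase _ _ hz, ← add_sum_erase _ _ (mem_erase.2 ⟨hzw.symm, hw⟩)]
  have h2 : sn (T z) + sn (T w) = 0 := by
    have h3 : ∀ a b : ZMod 2, a ≠ b → (if a = 0 then (1 : ℤ) else -1) +
      (if b = 0 then (1 : ℤ) else -1) = 0 := by decide
    have := h3 _ _ h
    unfold sn
    convert this
  rw [h1, ← add_assoc, h2, zero_add]
  refine (sum_sn_le _ _).trans ?_
  have h4 : ((Y.erase z).erase w).card + 1 ≤ Y.card := by
    have e1 := card_erase_add_one hz
    have e2 : ((Y.erase z).erase w).card ≤ (Y.erase z).card := card_erase_le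
    omega
  have : (((Y.erase z).erase w).card : ℤ) + 1 ≤ (Y.card : ℤ) := by exact_mod_cast h4
  linarith

section
variable {U I N M : Type} [Fintype U] [Fintype I] [Fintype N] [Fintype M]

/-- the decomposition into the small and large part -/
def eqv (U I K : Type) : ((K → U ⊕ I → ZMod 2) × (K → U ⊕ I → ZMod 2)) ≃
    (((K → U → ZMod 2) × (K → U → ZMod 2)) × (I → WW K)) where
  toFun y := ((fun k u => y.1 k (.inl u), fun k u => y.2 k (.inl u)),
    fun p => (fun k => y.1 k (.inr p), fun k => y.2 k (.inr p)))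
  invFun q := (fun k v => Sum.elim (q.1.1 k) (fun p => (q.2 p).1 k) v,
    fun k v => Sum.elim (q.1.2 k) (fun p => (q.2 p).2 k) v)
  left_inv y := by
    ext k v
    · cases v <;> rfl
    · cases v <;> rfl
  right_inv q := rfl

end

theorem t_GS : S_GS := by
  intro U I N M _ _ _ _ g e b t r Y n hFa hcard hadd hn
  set κ : KK r → M := fun k => k.1 with hκ
  set K := Fintype.card (KK r) with hK
  -- the conditions
  set Ss : (KK r → U → ZMod 2) → Prop := fun a => ∀ (k : KK r) (u : U),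
    ¬ (b k.1 u ∧ g.aU u) → a k u = 0 with hSs
  set G : ((KK r → U → ZMod 2) × (KK r → U → ZMod 2)) → I → WW (KK r) → ℤ := fun a p z =>
    if z ∈ Y (t p) ∧ (¬ g.aI p → z = 0) then sn (Tp g e b t r p a.1 a.2 z) else 0 with hG
  set H : ((KK r → U → ZMod 2) × (KK r → U → ZMod 2)) → ℤ := fun a =>
    if Ss a.1 ∧ Ss a.2 then sn (S0 g b r a.1 a.2) else 0 with hH
  have key : ∑ y ∈ univ.filter (fun y : (KK r → U ⊕ I → ZMod 2) × (KK r → U ⊕ I → ZMod 2) =>
      Sx g e b t r y.1 ∧ Sx g e b t r y.2 ∧ Vy t r Y y.1 y.2), sn (th g e b t r 0 y.1 y.2) =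
      ∑ a, H a * ∏ p, ∑ z, G a p z := by
    have h1 : ∀ a, ∏ p, ∑ z, G a p z = ∑ z : I → WW (KK r), ∏ p, G a p (z p) := by
      intro a
      rw [Finset.prod_univ_sum, Fintype.piFinset_univ]
    simp only [h1, mul_sum]
    rw [← Fintype.sum_prod_type' (f := fun (a : (KK r → U → ZMod 2) × (KK r → U → ZMod 2))
      (z : I → WW (KK r)) => H a * ∏ p, G a p (z p)), sum_filter]
    refine Fintype.sum_equiv (eqv U I (KK r)) _ _ ?_
    intro y
    set a := ((eqv U I (KK r)) y).1 with ha
    set z := ((eqv U I (KK r)) y).2 with hz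
    have ha1 : a = (fun k u => y.1 k (.inl u), fun k u => y.2 k (.inl u)) := rfl
    have hz1 : ∀ p, z p = (fun k => y.1 k (.inr p), fun k => y.2 k (.inr p)) := fun p => rfl
    have hth : th g e b t r 0 y.1 y.2 = S0 g b r a.1 a.2 + ∑ p, Tp g e b t r p a.1 a.2 (z p) :=
      th_split g e b t r y.1 y.2
    have hiff : (Sx g e b t r y.1 ∧ Sx g e b t r y.2 ∧ Vy t r Y y.1 y.2) ↔
        ((Ss a.1 ∧ Ss a.2) ∧ ∀ p, (z p ∈ Y (t p) ∧ (¬ g.aI p → z p = 0))) := by
      constructor
      · rintro ⟨q1, q2, q3⟩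
        refine ⟨⟨fun k u hu => q1 k (.inl u) hu, fun k u hu => q2 k (.inl u) hu⟩, fun p =>
          ⟨q3 p, fun hp => ?_⟩⟩
        rw [hz1 p]
        ext k
        · exact q1 k (.inr p) (fun h => hp h.2)
        · exact q2 k (.inr p) (fun h => hp h.2)
      · rintro ⟨⟨q1, q2⟩, q3⟩
        have hs : ∀ p k, ¬ (FF e b t k.1 (.inr p) ∧ g.act (.inr p : U ⊕ I)) →
            y.1 k (.inr p) = 0 ∧ y.2 k (.inr p) = 0 := by
          intro p k hk
          by_cases hp : g.aI p
          · have hk' : k ∉ Jt e κ (t p) := by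
              intro h
              exact hk ⟨(mem_filter.1 h).2, hp⟩
            exact hFa.sup (t p) (z p) (q3 p).1 k hk'
          · have h0 := (q3 p).2 hp
            rw [hz1 p] at h0
            exact ⟨congrFun (congrArg Prod.fst h0) k, congrFun (congrArg Prod.snd h0) k⟩
        refine ⟨fun k v hv => ?_, fun k v hv => ?_, fun p => (q3 p).1⟩
        · cases v with
          | inl u => exact q1 k u hv
          | inr p => exact (hs p k hv).1
        · cases v with
          | inl u => exact q2 k u hv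
          | inr p => exact (hs p k hv).2
    show (if (Sx g e b t r y.1 ∧ Sx g e b t r y.2 ∧ Vy t r Y y.1 y.2) then
      sn (th g e b t r 0 y.1 y.2) else 0) = H a * ∏ p, G a p (z p)
    by_cases hc : (Ss a.1 ∧ Ss a.2)
    · by_cases hc2 : ∀ p, (z p ∈ Y (t p) ∧ (¬ g.aI p → z p = 0))
      · rw [if_pos (hiff.2 ⟨hc, hc2⟩), hth, sn_add, sn_sum]
        simp only [hH, hG]
        rw [if_pos hc]
        congr 1
        refine prod_congr rfl fun p _ => ?_
        rw [if_pos (hc2 p)]
      · rw [if_neg (fun h => hc2 (hiff.1 h).2)]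
        push Not at hc2
        obtain ⟨p, hp⟩ := hc2
        have : G a p (z p) = 0 := by
          simp only [hG]
          rw [if_neg]
          rintro ⟨m1, m2⟩
          obtain ⟨m3, m4⟩ := hp m1
          exact m4 (m2 m3)
        rw [prod_eq_zero (mem_univ p) this, mul_zero]
    · rw [if_neg (fun h => hc (hiff.1 h).1)]
      simp only [hH]
      rw [if_neg hc, zero_mul]
  rw [key]
  -- bounds of the factors
  set θ : ℝ := 1 - (1 / 2 : ℝ) ^ K with hθ
  have hθ0 : 0 ≤ θ := by
    have : (1 / 2 : ℝ) ^ K ≤ 1 := pow_le_one₀ (by norm_num) (by norm_num)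
    simp only [hθ]; linarith
  have hθ1 : θ ≤ 1 := by
    have : (0 : ℝ) ≤ (1 / 2 : ℝ) ^ K := by positivity
    simp only [hθ]; linarith
  set Bad : I → Prop := fun p => g.aI p ∧ ∃ z ∈ Y (t p), ∃ w ∈ Y (t p),
    ∑ k ∈ Jt e κ (t p), lj g b p k.1 * (z.1 k * w.2 k + w.1 k * z.2 k) ≠ 0 with hBad
  set Mb : I → ℝ := fun p => if g.aI p then (if Bad p then ((Y (t p)).card : ℝ) * θ
    else ((Y (t p)).card : ℝ)) else 1 with hMb
  have hfac : ∀ a p, |((∑ z, G a p z : ℤ) : ℝ)| ≤ Mb p := by
    intro a p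
    have hsum : ∑ z, G a p z = ∑ z ∈ univ.filter (fun z => z ∈ Y (t p) ∧ (¬ g.aI p → z = 0)),
        sn (Tp g e b t r p a.1 a.2 z) := by
      rw [sum_filter]
    rw [hsum]
    by_cases hp : g.aI p
    · have hf : univ.filter (fun z => z ∈ Y (t p) ∧ (¬ g.aI p → z = 0)) = Y (t p) := by
        ext z
        simp [hp]
      rw [hf]
      have hb0 : |((∑ z ∈ Y (t p), sn (Tp g e b t r p a.1 a.2 z) : ℤ) : ℝ)| ≤
          ((Y (t p)).card : ℝ) := by
        have := sum_sn_le (Y (t p)) (fun z => Tp g e b t r p a.1 a.2 z)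
        exact_mod_cast this
      by_cases hbd : Bad p
      · simp only [hMb]
        rw [if_pos hp, if_pos hbd]
        obtain ⟨-, z, hz, w, hw, hne⟩ := hbd
        have hQ : ∀ v ∈ Y (t p), Qf (Jt e κ (t p)) v = 0 := by
          intro v hv
          exact qf_self _ v (hFa.pair (t p) (t p) v hv 0 (hFa.zero _))
        have hdd := Tp_dd g e b t r p a.1 a.2 z w (hFa.sup _ z hz) (hFa.sup _ w hw)
          (hQ z hz) (hQ w hw) (hQ _ (hadd _ z hz w hw))
        have hnc : ∃ z1 ∈ Y (t p), ∃ z2 ∈ Y (t p), Tp g e b t r p a.1 a.2 z1 ≠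
            Tp g e b t r p a.1 a.2 z2 := by
          by_contra hcon
          push Not at hcon
          rw [hcon (z + w) (hadd _ z hz w hw) z hz, hcon w hw z hz,
            hcon 0 (hFa.zero _) z hz] at hdd
          rw [add_self_two, zero_add, add_self_two] at hdd
          exact hne hdd.symm
        obtain ⟨z1, h1, z2, h2, h12⟩ := hnc
        have h3 := sum_sn_lt (Y (t p)) (fun z => Tp g e b t r p a.1 a.2 z) z1 z2 h1 h2 h12
        have h4 : |((∑ z ∈ Y (t p), sn (Tp g e b t r p a.1 a.2 z) : ℤ) : ℝ)| ≤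
            ((Y (t p)).card : ℝ) - 1 := by exact_mod_cast h3
        refine h4.trans ?_
        have h5 : ((Y (t p)).card : ℝ) * (1 / 2 : ℝ) ^ K ≤ 1 := by
          rw [hcard (t p)]
          push_cast
          have h6 : (Jt e κ (t p)).card ≤ K := by
            rw [hK]
            exact card_le_univ _
          calc (2 : ℝ) ^ (Jt e κ (t p)).card * (1 / 2 : ℝ) ^ K ≤ 2 ^ K * (1 / 2 : ℝ) ^ K := by
                gcongr
                norm_num
            _ = 1 := by rw [← mul_pow]; norm_num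
        simp only [hθ]
        linarith
      · simp only [hMb]
        rw [if_pos hp, if_neg hbd]
        exact hb0
    · have hf : univ.filter (fun z : WW (KK r) => z ∈ Y (t p) ∧ (¬ g.aI p → z = 0)) =
          ({0} : Finset (WW (KK r))) := by
        ext z
        simp only [mem_filter, mem_univ, true_and, mem_singleton, hp, not_false_eq_true,
          forall_const]
        constructor
        · exact fun h => h.2
        · rintro rfl
          exact ⟨hFa.zero _, rfl⟩
      rw [hf, sum_singleton]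
      simp only [hMb]
      rw [if_neg hp]
      have := sn_abs (Tp g e b t r p a.1 a.2 (0 : WW (KK r)))
      have h2 : |((sn (Tp g e b t r p a.1 a.2 0) : ℤ) : ℝ)| = 1 := by exact_mod_cast this
      exact h2.le
  have hMb0 : ∀ p, 0 ≤ Mb p := by
    intro p
    simp only [hMb]
    split_ifs <;> positivity
  have hHb : ∀ a, |((H a : ℤ) : ℝ)| ≤ 1 := by
    intro a
    simp only [hH]
    split_ifs
    · have := sn_abs (S0 g b r a.1 a.2)
      have h2 : |((sn (S0 g b r a.1 a.2) : ℤ) : ℝ)| = 1 := by exact_mod_cast this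
      exact h2.le
    · simp
  have hbound : |((∑ a, H a * ∏ p, ∑ z, G a p z : ℤ) : ℝ)| ≤
      ∑ _a : ((KK r → U → ZMod 2) × (KK r → U → ZMod 2)), ∏ p, Mb p := by
    push_cast
    refine (abs_sum_le_sum_abs _ _).trans (sum_le_sum fun a _ => ?_)
    rw [abs_mul, abs_prod]
    calc |((H a : ℤ) : ℝ)| * ∏ p, |∑ z, ((G a p z : ℤ) : ℝ)| ≤ 1 * ∏ p, Mb p := by
          refine mul_le_mul (hHb a) ?_ (prod_nonneg fun p _ => abs_nonneg _) zero_le_one
          refine prod_le_prod (fun p _ => abs_nonneg _) fun p _ => ?_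
          have := hfac a p
          push_cast at this
          exact this
      _ = ∏ p, Mb p := one_mul _
  refine hbound.trans ?_
  have hcardA : (Fintype.card ((KK r → U → ZMod 2) × (KK r → U → ZMod 2)) : ℝ) =
      2 ^ (2 * Fintype.card (KK r) * Fintype.card U) := by
    rw [Fintype.card_prod]
    simp only [Fintype.card_fun, ZMod.card]
    push_cast
    rw [← pow_mul, ← pow_add]
    congr 1
    ring
  rw [sum_const, nsmul_eq_mul, card_univ, hcardA]
  have h2p : (0 : ℝ) ≤ 2 ^ (2 * Fintype.card (KK r) * Fintype.card U) := by positivity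
  refine (mul_le_mul_of_nonneg_left (?_ : ∏ p, Mb p ≤
    (∏ p ∈ univ.filter (fun p : I => g.aI p), ((Y (t p)).card : ℝ)) * θ ^ n) h2p).trans_eq
    (mul_assoc _ _ _).symm
  have hprod : ∏ p, Mb p = (∏ p ∈ univ.filter (fun p : I => g.aI p), ((Y (t p)).card : ℝ)) *
      θ ^ (univ.filter fun p : I => Bad p).card := by
    have h1 : ∀ p, Mb p = (if g.aI p then ((Y (t p)).card : ℝ) else 1) *
        (if Bad p then θ else 1) := by
      intro p
      simp only [hMb]
      by_cases hp : g.aI p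
      · rw [if_pos hp, if_pos hp]
        split_ifs
        · rfl
        · rw [mul_one]
      · rw [if_neg hp, if_neg hp, if_neg (fun h : Bad p => hp h.1), mul_one]
    simp only [h1]
    rw [prod_mul_distrib, ← prod_filter, ← prod_filter, prod_const]
  rw [hprod]
  refine mul_le_mul_of_nonneg_left ?_ (prod_nonneg fun p _ => by positivity)
  exact pow_le_pow_of_le_one hθ0 hθ1 hn

end Q187.LP.GS
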