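import Pool.Agent.Q187.LP.FOU

set_option autoImplicit false

open scoped Classical

namespace Q187.LP

open Finset Module Q283.LP
open Pool.Agent.Y697.PQ (ij)

section
variable {U I N M : Type} [Fintype U] [Fintype I] [Fintype N] [Fintype M]

/-- a vector of the kernel which vanishes on the large indices is zero -/
theorem ker_zero (g : Gr U I) (e : M → N → ZMod 2) (b : M → U → Prop) (t : I → N → ZMod 2)
    (α : I → I → ZMod 2) (j : M)
    (hreg : ∀ (w : Finset U), w.Nonempty → (∀ u ∈ w, g.aU u) →
      ∃ p, g.aI p ∧ ∑ i, e j i * t p i = 1 ∧ ∑ u ∈ w, g.lb p u ≠ 0)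
    (x : U ⊕ I → ZMod 2) (hx : x ∈ g.Ke α (FF e b t j)) (h0 : ∀ p, x (.inr p) = 0) : x = 0 := by
  obtain ⟨h1, h2⟩ := mem_Ke.1 hx
  by_contra hne
  let w : Finset U := univ.filter (fun u => x (.inl u) ≠ 0)
  have hw : w.Nonempty := by
    by_contra hem
    rw [not_nonempty_iff_eq_empty, filter_eq_empty_iff] at hem
    apply hne
    funext v
    rcases v with u | p
    · have := hem (mem_univ u)
      simpa using this
    · exact h0 p
  have hsupp : ∀ u, x (.inl u) ≠ 0 → b j u ∧ g.aU u := by
    intro u hu
    by_contra hc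
    exact hu (h1 (.inl u) hc)
  obtain ⟨p, hp1, hp2, hp3⟩ := hreg w hw (fun u hu => (hsupp u (mem_filter.1 hu).2).2)
  have hr := h2 (.inr p) hp2 hp1
  unfold Gr.row at hr
  rw [h0 p, mul_zero, add_zero, sum_filter, Fintype.sum_sum_type] at hr
  have e2 : ∀ q : I, (if FF e b t j (.inr q) then
      g.sg α (.inr p) (.inr q) * (x (.inr q) + 0) else 0) = 0 := by
    intro q
    rw [h0 q, add_zero, mul_zero, ite_self]
  rw [sum_congr rfl (fun q _ => e2 q), sum_const_zero, add_zero] at hr
  apply hp3
  rw [← hr, sum_filter]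
  apply sum_congr rfl
  intro u _
  by_cases hu : x (.inl u) = 0
  · rw [if_neg (fun h => h hu), hu, add_zero, mul_zero, ite_self]
  · have hF : FF e b t j (.inl u) := (hsupp u hu).1
    rw [if_pos hu, if_pos hF, ne_zero_one _ hu]
    show g.lb p u = g.lb p u * (1 + 0)
    ring

/-- the tuples of one form -/
noncomputable def Sj (g : Gr U I) (e : M → N → ZMod 2) (b : M → U → Prop) (t : I → N → ZMod 2)
    (r : M → ℕ) (α : I → I → ZMod 2) (j : M) : Finset (Fin (r j) → U ⊕ I → ZMod 2) :=
  univ.filter fun y => (∀ i, y i ∈ g.Ke α (FF e b t j)) ∧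
    ∀ c : Fin (r j) → ZMod 2, (∀ p : I, ∑ i, c i * y i (.inr p) = 0) → c = 0

theorem NT_eq (g : Gr U I) (e : M → N → ZMod 2) (b : M → U → Prop) (t : I → N → ZMod 2)
    (r : M → ℕ) (α : I → I → ZMod 2) : NT g e b t r α = ∏ j, (Sj g e b t r α j).card := by
  rw [← Fintype.card_piFinset]
  unfold NT
  refine Finset.card_bij' (fun x _ => fun j i => x ⟨j, i⟩) (fun y _ => fun k => y k.1 k.2)
    ?_ ?_ ?_ ?_
  · intro x hx
    obtain ⟨-, h1, h2⟩ := mem_filter.1 hx
    rw [Fintype.mem_piFinset]
    intro j
    unfold Sj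
    rw [mem_filter]
    exact ⟨mem_univ _, fun i => h1 ⟨j, i⟩, fun c hc => h2 j c hc⟩
  · intro y hy
    rw [Fintype.mem_piFinset] at hy
    rw [mem_filter]
    refine ⟨mem_univ _, ?_, ?_⟩
    · rintro ⟨j, i⟩
      have := hy j
      unfold Sj at this
      rw [mem_filter] at this
      exact this.2.1 i
    · intro j c hc
      have := hy j
      unfold Sj at this
      rw [mem_filter] at this
      exact this.2.2 c hc
  · intro x _
    rfl
  · intro y _
    rfl

theorem card_Sj (g : Gr U I) (e : M → N → ZMod 2) (b : M → U → Prop) (t : I → N → ZMod 2)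
    (r : M → ℕ) (α : I → I → ZMod 2) (j : M)
    (hreg : ∀ (w : Finset U), w.Nonempty → (∀ u ∈ w, g.aU u) →
      ∃ p, g.aI p ∧ ∑ i, e j i * t p i = 1 ∧ ∑ u ∈ w, g.lb p u ≠ 0) :
    ((Sj g e b t r α j).card : ℝ) = ij (r j) (2 ^ g.co α (FF e b t j)) := by
  set V := g.Ke α (FF e b t j) with hV
  have hbij : (Sj g e b t r α j).card =
      Nat.card {s : Fin (r j) → V // LinearIndependent (ZMod 2) s} := by
    rw [Nat.card_eq_fintype_card, Fintype.card_subtype]
    have hch : ∀ (s : Fin (r j) → V), LinearIndependent (ZMod 2) s ↔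
        ∀ c : Fin (r j) → ZMod 2, (∀ p : I, ∑ i, c i * (s i : U ⊕ I → ZMod 2) (.inr p) = 0) →
          c = 0 := by
      intro s
      rw [Fintype.linearIndependent_iff]
      constructor
      · intro h c hc
        have h3 : ∑ i, c i • s i = 0 := by
          apply Subtype.ext
          apply ker_zero g e b t α j hreg _ (∑ i, c i • s i : V).2
          intro p
          rw [Submodule.coe_sum, Finset.sum_apply]
          simpa using hc p
        funext i
        exact h c h3 i
      · intro h c hc i
        have h4 : c = 0 := by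
          apply h
          intro p
          have h5 : ((∑ i, c i • s i : V) : U ⊕ I → ZMod 2) (.inr p) = 0 := by
            rw [hc]
            rfl
          rw [Submodule.coe_sum, Finset.sum_apply] at h5
          simpa using h5
        rw [h4]
        rfl
    symm
    apply Finset.card_bij (fun s _ => fun i => (s i : U ⊕ I → ZMod 2))
    · intro s hs
      rw [mem_filter] at hs
      unfold Sj
      rw [mem_filter]
      exact ⟨mem_univ _, fun i => (s i).2, (hch s).1 hs.2⟩
    · intro s _ s' _ h
      funext i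
      exact Subtype.ext (congrFun h i)
    · intro y hy
      unfold Sj at hy
      rw [mem_filter] at hy
      refine ⟨fun i => ⟨y i, hy.2.1 i⟩, ?_, rfl⟩
      rw [mem_filter]
      exact ⟨mem_univ _, (hch _).2 hy.2.2⟩
  rw [hbij]
  have hco : g.co α (FF e b t j) = finrank (ZMod 2) V := rfl
  rw [hco]
  rcases le_or_gt (r j) (finrank (ZMod 2) V) with h | h
  · rw [card_linearIndependent h, ZMod.card]
    unfold ij
    rw [Nat.cast_prod, ← Fin.prod_univ_eq_prod_range (fun i => ((2 : ℝ) ^ finrank (ZMod 2) V - 2 ^ i))]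
    apply prod_congr rfl
    intro i _
    rw [Nat.cast_sub (Nat.pow_le_pow_right (by norm_num) (i.2.le.trans h))]
    push_cast
    rfl
  · have h1 : Nat.card {s : Fin (r j) → V // LinearIndependent (ZMod 2) s} = 0 := by
      rw [Nat.card_eq_zero]
      left
      constructor
      rintro ⟨s, hs⟩
      have := hs.fintype_card_le_finrank
      rw [Fintype.card_fin] at this
      omega
    rw [h1]
    unfold ij
    symm
    rw [Nat.cast_zero]
    apply prod_eq_zero (mem_range.2 h)
    rw [sub_self]

theorem t_NT : S_NT := by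
  intro U I N M _ _ _ _ g e b t r α hreg
  rw [NT_eq, Nat.cast_prod]
  apply prod_congr rfl
  intro j _
  exact card_Sj g e b t r α j (hreg j)

end

end Q187.LP
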