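import Pool.Agent.Q283.LP.Stm3
import Pool.Agent.Q98.LP.SEC

/-!
Project LP (helper283), second version: the second moment of the share (adapted from the proof of
helper98).
-/

set_option autoImplicit false

open scoped Classical

namespace Q187.LP.SEC2

open Finset Q283.LP Q98.LP
open Q283.GS (al)

section
variable {U I N M : Type} [Fintype U] [Fintype I] [Fintype N] [Fintype M]

omit [Fintype N] [Fintype M] in
theorem Spp_mono {g : Gr U I} {e : M → N → ZMod 2} {m : M → U → ZMod 2} {A R A' R' : ℕ}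
    (h : Spp g e m A R) (hA : A' ≤ A) (hR : R' ≤ R) : Spp g e m A' R' := by
  intro j l hjl hejl
  exact (Nat.add_le_add (Nat.mul_le_mul_right _ hA) hR).trans (h j l hjl hejl)

omit [Fintype N] [Fintype M] in
theorem Spp_dbl {g : Gr U I} {e : M → N → ZMod 2} (h0 : ∀ j, e j ≠ 0) {m : M → U → ZMod 2}
    {A R : ℕ} (h : Spp g e m A R) : Spp g (e2 e) (Sum.elim m m) A R := by
  rintro (j | j) (l | l) hjl hejl
  · refine h j l (fun h' => hjl (by rw [h'])) ?_
    funext i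
    have := congrFun hejl (.inl i)
    simpa [e2] using this
  · exfalso
    apply h0 j
    funext i
    have := congrFun hejl (.inl i)
    simpa [e2] using this
  · exfalso
    apply h0 j
    funext i
    have := congrFun hejl (.inr i)
    simpa [e2] using this
  · refine h j l (fun h' => hjl (by rw [h'])) ?_
    funext i
    have := congrFun hejl (.inr i)
    simpa [e2] using this

omit [Fintype U] [Fintype I] [Fintype M] in
theorem bb_comb (e : M → N → ZMod 2) (m : M → U → ZMod 2) (τ τ' : U → N → ZMod 2) :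
    bb (e2 e) (Sum.elim m m) (comb τ τ') = Sum.elim (bb e m τ) (bb e m τ') := by
  funext j u
  rcases j with j | j
  · simp [bb, e2, comb]
  · simp [bb, e2, comb]

end

theorem t_SEC2 : Q283.LP.S_SEC2 := by
  intro hLT hTYP N M _ _ e h0 D₀ δ hδ
  set d1 : ℝ := δ / 8 with hd1
  have hd1p : 0 < d1 := by positivity
  set d2 : ℝ := δ / (2 * ((D₀ : ℝ) + 1) ^ 2) with hd2
  have hd2p : 0 < d2 := by positivity
  obtain ⟨C1, R1, hL1⟩ := hLT (N ⊕ N) (M ⊕ M) (e2 e) (e2_ne h0) d1 hd1p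
  obtain ⟨C2, R2, hL2⟩ := hLT N M e h0 d1 hd1p
  obtain ⟨A1, Q1, hT1⟩ := hTYP (N ⊕ N) (M ⊕ M) (e2 e) (e2_ne h0) C1 R1 d2 hd2p
  obtain ⟨A2, Q2, hT2⟩ := hTYP N M e h0 C2 R2 d2 hd2p
  refine ⟨max A1 A2, max Q1 Q2, ?_⟩
  intro U I _ _ g m T hR hSp hT hD r
  have hR1 : Rgg g A1 Q1 := Rgg.mono hR (le_max_left _ _) (le_max_left _ _)
  have hR2 : Rgg g A2 Q2 := Rgg.mono hR (le_max_right _ _) (le_max_right _ _)
  have hB1' := fun τ τ' : U → N → ZMod 2 => hT1 U I g (Sum.elim m m) (comb τ τ') hR1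
    (Spp_dbl h0 (Spp_mono hSp (le_max_left _ _) (le_max_left _ _)))
  have hB2 := fun τ : U → N → ZMod 2 => hT2 U I g m τ hR2
    (Spp_mono hSp (le_max_right _ _) (le_max_right _ _))
  simp only [bb_comb] at hB1'
  rw [Fintype.card_eq_nat_card, card_comb, Nat.cast_mul] at hB1'
  set X : ℝ := (Fintype.card (I → N → ZMod 2) : ℝ) with hX
  have hXp : 0 ≤ X := Nat.cast_nonneg _
  have hB1 : ∀ τ τ' : U → N → ZMod 2, ((univ.filter fun t : I → N ⊕ N → ZMod 2 =>
      ¬ Ty2 g (e2 e) (Sum.elim (bb e m τ) (bb e m τ')) C1 R1 t).card : ℝ) ≤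
      d2 * (X * X) := by
    intro τ τ'
    convert hB1' τ τ' using 3
    refine Finset.ext fun t => ?_
    simp only [mem_filter, mem_univ, true_and]
  set P : ℝ := ∏ j, al (r j) with hP
  have hP0 : 0 ≤ P := prod_nonneg fun j _ => (Q283.GS.al_pos _).le
  have hP1 : P ≤ 1 := prod_le_one (fun j _ => (Q283.GS.al_pos _).le) fun j _ => al_le_one _
  -- the events
  set E : ((U → N → ZMod 2) × (I → N → ZMod 2)) → (I → I → ZMod 2) → Prop :=
    fun τ α => ∀ j, g.co α (FF e (bb e m τ.1) τ.2 j) = r j with hE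
  set c : ((U → N → ZMod 2) × (I → N → ZMod 2)) → ((U → N → ZMod 2) × (I → N → ZMod 2)) → ℝ :=
    fun τ τ' => (∑ α, (ind1 (E τ α) - P) * (ind1 (E τ' α) - P)) /
      (Fintype.card (I → I → ZMod 2) : ℝ) with hc
  have hTp : (0 : ℝ) < T.card := by exact_mod_cast hT.card_pos
  have hn : (0 : ℝ) < Fintype.card (I → I → ZMod 2) := by exact_mod_cast Fintype.card_pos
  -- the expansion
  have hshr : ∀ α, shr g e m T r α - P = (∑ τ ∈ T, (ind1 (E τ α) - P)) / T.card := by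
    intro α
    rw [sum_sub_distrib, sum_const, nsmul_eq_mul, sub_div, mul_div_cancel_left₀ _ hTp.ne']
    congr 1
    unfold shr
    congr 1
    rw [sum_ind1 T (fun τ => E τ α)]
  have hexp : (∑ α : I → I → ZMod 2, (shr g e m T r α - P) ^ 2) /
      (Fintype.card (I → I → ZMod 2) : ℝ) = (∑ τ ∈ T, ∑ τ' ∈ T, c τ τ') / (T.card : ℝ) ^ 2 := by
    have h1 : ∀ α, (shr g e m T r α - P) ^ 2 =
        (∑ τ ∈ T, ∑ τ' ∈ T, (ind1 (E τ α) - P) * (ind1 (E τ' α) - P)) / (T.card : ℝ) ^ 2 := by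
      intro α
      rw [hshr α, div_pow, sq (∑ τ ∈ T, (ind1 (E τ α) - P)), sum_mul_sum]
    simp_rw [h1]
    rw [← sum_div, div_div, mul_comm ((T.card : ℝ) ^ 2), ← div_div]
    congr 1
    rw [sum_comm, sum_div]
    refine sum_congr rfl fun τ _ => ?_
    rw [sum_comm, sum_div]
  rw [hexp, div_le_iff₀ (by positivity)]
  -- the bad pairs
  set b1 : ((U → N → ZMod 2) × (I → N → ZMod 2)) → ((U → N → ZMod 2) × (I → N → ZMod 2)) → ℝ :=
    fun τ τ' => if Ty2 g (e2 e) (Sum.elim (bb e m τ.1) (bb e m τ'.1)) C1 R1 (comb τ.2 τ'.2)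
      then 0 else 1 with hb1
  set b2 : ((U → N → ZMod 2) × (I → N → ZMod 2)) → ℝ :=
    fun τ => if Ty2 g e (bb e m τ.1) C2 R2 τ.2 then 0 else 1 with hb2
  have hb1n : ∀ t t', 0 ≤ b1 t t' := fun t t' => by rw [hb1]; simp only; split_ifs <;> norm_num
  have hb2n : ∀ t, 0 ≤ b2 t := fun t => by rw [hb2]; simp only; split_ifs <;> norm_num
  have hpair : ∀ τ τ', c τ τ' ≤ 3 * d1 + b1 τ τ' + b2 τ + b2 τ' := by
    intro τ τ'
    have hle1 : c τ τ' ≤ 1 := cov_le_one (E τ) (E τ') hP0 hP1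
    by_cases k1 : Ty2 g (e2 e) (Sum.elim (bb e m τ.1) (bb e m τ'.1)) C1 R1 (comb τ.2 τ'.2)
    · by_cases k2 : Ty2 g e (bb e m τ.1) C2 R2 τ.2
      · by_cases k3 : Ty2 g e (bb e m τ'.1) C2 R2 τ'.2
        · have a1 := hL1 U I g (Sum.elim (bb e m τ.1) (bb e m τ'.1)) (comb τ.2 τ'.2) k1
            (Sum.elim r r)
          have a2 := hL2 U I g (bb e m τ.1) τ.2 k2 r
          have a3 := hL2 U I g (bb e m τ'.1) τ'.2 k3 r
          have e3 : (univ.filter fun α : I → I → ZMod 2 => ∀ j, g.co α (FF (e2 e)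
              (Sum.elim (bb e m τ.1) (bb e m τ'.1)) (comb τ.2 τ'.2) j) = Sum.elim r r j) =
              univ.filter fun α => E τ α ∧ E τ' α := by
            refine filter_congr fun α _ => ?_
            rw [Sum.forall]
            simp only [FF_inl, FF_inr, Sum.elim_inl, Sum.elim_inr, hE]
          have e4 : ∏ j, al (Sum.elim r r j) = P * P := by
            rw [Fintype.prod_sum_type]
            simp only [Sum.elim_inl, Sum.elim_inr]
            rfl
          rw [e3, e4, ← sum_ind1] at a1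
          rw [← sum_ind1] at a2 a3
          have := cov_le (E τ) (E τ') hP0 hP1 a1 a2 a3
          have q1 := hb1n τ τ'
          have q2 := hb2n τ
          have q3 := hb2n τ'
          change c τ τ' ≤ 3 * d1 at this
          linarith
        · have q0 : b2 τ' = 1 := by rw [hb2]; simp only; rw [if_neg k3]
          have q1 := hb1n τ τ'
          have q2 := hb2n τ
          linarith
      · have q0 : b2 τ = 1 := by rw [hb2]; simp only; rw [if_neg k2]
        have q1 := hb1n τ τ'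
        have q2 := hb2n τ'
        linarith
    · have q0 : b1 τ τ' = 1 := by rw [hb1]; simp only; rw [if_neg k1]
      have q1 := hb2n τ
      have q2 := hb2n τ'
      linarith
  -- the projection
  set T1 : Finset (U → N → ZMod 2) := T.image Prod.fst with hT1d
  have hT1c : (T1.card : ℝ) * X ≤ D₀ * T.card := by
    have k1 : T1.card * Fintype.card (I → N → ZMod 2) ≤ D₀ * T.card := by
      rw [Finset.card_eq_sum_card_image Prod.fst T, mul_sum, ← smul_eq_mul, ← sum_const]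
      refine sum_le_sum fun τ1 hτ1 => ?_
      rw [mem_image] at hτ1
      obtain ⟨τ, hτ, rfl⟩ := hτ1
      refine (hD τ.1 ⟨τ.2, hτ⟩).trans (Nat.mul_le_mul_left _ ?_)
      refine Finset.card_le_card_of_injOn (fun t => (τ.1, t)) (fun t ht => ?_) ?_
      · rw [mem_coe, mem_filter] at ht ⊢
        exact ⟨ht.2, rfl⟩
      · intro t _ t' _ h
        exact (Prod.mk.inj h).2
    rw [hX]
    exact_mod_cast k1
  have hTsub : T ⊆ T1 ×ˢ (univ : Finset (I → N → ZMod 2)) := by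
    intro τ hτ
    rw [mem_product]
    exact ⟨mem_image_of_mem _ hτ, mem_univ _⟩
  have hs2 : ∑ τ ∈ T, b2 τ ≤ d2 * D₀ * T.card := by
    have k1 : ∀ τ1 : U → N → ZMod 2, ∑ t : I → N → ZMod 2, b2 (τ1, t) ≤ d2 * X := by
      intro τ1
      refine le_trans (le_of_eq ?_) (hB2 τ1)
      rw [← sum_ind1, hb2]
      refine sum_congr rfl fun t _ => ?_
      by_cases h : Ty2 g e (bb e m τ1) C2 R2 t
      · rw [ind1_false (fun h' => h' h)]
        simp only
        rw [if_pos h]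
      · rw [ind1_true h]
        simp only
        rw [if_neg h]
    calc ∑ τ ∈ T, b2 τ ≤ ∑ τ ∈ T1 ×ˢ (univ : Finset (I → N → ZMod 2)), b2 τ :=
          sum_le_sum_of_subset_of_nonneg hTsub fun τ _ _ => hb2n τ
      _ = ∑ τ1 ∈ T1, ∑ t, b2 (τ1, t) := by rw [sum_product]
      _ ≤ ∑ _τ1 ∈ T1, d2 * X := sum_le_sum fun τ1 _ => k1 τ1
      _ = d2 * (T1.card * X) := by rw [sum_const, nsmul_eq_mul]; ring
      _ ≤ d2 * (D₀ * T.card) := mul_le_mul_of_nonneg_left hT1c hd2p.le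
      _ = _ := by ring
  have hs1 : ∑ τ ∈ T, ∑ τ' ∈ T, b1 τ τ' ≤ d2 * D₀ ^ 2 * (T.card : ℝ) ^ 2 := by
    have k1 : ∀ τ1 τ1' : U → N → ZMod 2, ∑ t : I → N → ZMod 2, ∑ t' : I → N → ZMod 2,
        b1 (τ1, t) (τ1', t') ≤ d2 * (X * X) := by
      intro τ1 τ1'
      refine le_trans ?_ (hB1 τ1 τ1')
      have e5 : ∑ t : I → N → ZMod 2, ∑ t' : I → N → ZMod 2, b1 (τ1, t) (τ1', t') =
          (((univ : Finset ((I → N → ZMod 2) × (I → N → ZMod 2))).filter fun y =>
            ¬ Ty2 g (e2 e) (Sum.elim (bb e m τ1) (bb e m τ1')) C1 R1 (comb y.1 y.2)).card : ℝ) := by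
        rw [← Fintype.sum_prod_type' (f := fun t t' => b1 (τ1, t) (τ1', t')), ← sum_ind1, hb1]
        refine sum_congr rfl fun y _ => ?_
        by_cases h : Ty2 g (e2 e) (Sum.elim (bb e m τ1) (bb e m τ1')) C1 R1 (comb y.1 y.2)
        · rw [ind1_false (fun h' => h' h)]
          simp only
          rw [if_pos h]
        · rw [ind1_true h]
          simp only
          rw [if_neg h]
      rw [e5]
      have k2 : ((univ : Finset ((I → N → ZMod 2) × (I → N → ZMod 2))).filter fun y =>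
            ¬ Ty2 g (e2 e) (Sum.elim (bb e m τ1) (bb e m τ1')) C1 R1 (comb y.1 y.2)).card ≤
          (univ.filter fun t : I → N ⊕ N → ZMod 2 =>
            ¬ Ty2 g (e2 e) (Sum.elim (bb e m τ1) (bb e m τ1')) C1 R1 t).card := by
        refine Finset.card_le_card_of_injOn (fun y => comb y.1 y.2) (fun y hy => ?_) ?_
        · rw [mem_coe, mem_filter] at hy
          rw [mem_coe, mem_filter]
          exact ⟨mem_univ _, hy.2⟩
        · intro y _ y' _ h
          obtain ⟨h5, h6⟩ := comb_inj h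
          exact Prod.ext h5 h6
      exact_mod_cast k2
    have hTX : 0 ≤ (T1.card : ℝ) * X := by positivity
    calc ∑ τ ∈ T, ∑ τ' ∈ T, b1 τ τ' ≤
          ∑ τ ∈ T1 ×ˢ (univ : Finset (I → N → ZMod 2)), ∑ τ' ∈ T, b1 τ τ' :=
          sum_le_sum_of_subset_of_nonneg hTsub fun τ _ _ => sum_nonneg fun τ' _ => hb1n τ τ'
      _ ≤ ∑ τ ∈ T1 ×ˢ (univ : Finset (I → N → ZMod 2)),
          ∑ τ' ∈ T1 ×ˢ (univ : Finset (I → N → ZMod 2)), b1 τ τ' :=
          sum_le_sum fun τ _ => sum_le_sum_of_subset_of_nonneg hTsub fun τ' _ _ => hb1n τ τ'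
      _ = ∑ τ1 ∈ T1, ∑ t, ∑ τ1' ∈ T1, ∑ t', b1 (τ1, t) (τ1', t') := by
          rw [sum_product]
          refine sum_congr rfl fun τ1 _ => sum_congr rfl fun t _ => ?_
          rw [sum_product]
      _ = ∑ τ1 ∈ T1, ∑ τ1' ∈ T1, ∑ t, ∑ t', b1 (τ1, t) (τ1', t') :=
          sum_congr rfl fun τ1 _ => sum_comm
      _ ≤ ∑ _τ1 ∈ T1, ∑ _τ1' ∈ T1, d2 * (X * X) :=
          sum_le_sum fun τ1 _ => sum_le_sum fun τ1' _ => k1 τ1 τ1'
      _ = d2 * ((T1.card * X) * (T1.card * X)) := by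
          rw [sum_const, sum_const, nsmul_eq_mul, nsmul_eq_mul]; ring
      _ ≤ d2 * ((D₀ * T.card) * (D₀ * T.card)) := by gcongr
      _ = _ := by ring
  calc ∑ τ ∈ T, ∑ τ' ∈ T, c τ τ' ≤
        ∑ τ ∈ T, ∑ τ' ∈ T, (3 * d1 + b1 τ τ' + b2 τ + b2 τ') :=
        sum_le_sum fun τ _ => sum_le_sum fun τ' _ => hpair τ τ'
    _ = 3 * d1 * (T.card : ℝ) ^ 2 + ∑ τ ∈ T, ∑ τ' ∈ T, b1 τ τ' +
        2 * T.card * ∑ τ ∈ T, b2 τ := by
        simp only [sum_add_distrib, sum_const, nsmul_eq_mul, ← mul_sum]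
        ring
    _ ≤ 3 * d1 * (T.card : ℝ) ^ 2 + d2 * D₀ ^ 2 * (T.card : ℝ) ^ 2 +
        2 * T.card * (d2 * D₀ * T.card) := by gcongr
    _ = (3 * d1 + d2 * (D₀ ^ 2 + 2 * D₀)) * (T.card : ℝ) ^ 2 := by ring
    _ ≤ δ * (T.card : ℝ) ^ 2 := by
        refine mul_le_mul_of_nonneg_right ?_ (by positivity)
        have k1 : d2 * (D₀ ^ 2 + 2 * D₀) ≤ d2 * ((D₀ : ℝ) + 1) ^ 2 :=
          mul_le_mul_of_nonneg_left (by nlinarith) hd2p.le
        have k2 : d2 * ((D₀ : ℝ) + 1) ^ 2 = δ / 2 := by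
          rw [hd2]
          field_simp
        rw [k2] at k1
        rw [hd1]
        linarith

end Q187.LP.SEC2
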