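import Pool.Agent.Q283.LP.Stm3
import Pool.Agent.Q98.LP.STR
import Pool.Agent.Q187.LP.ISO

/-!
Project LP (helper283), second version: the structure of the admissible families with separation
(adapted from the proof of helper98).
-/

set_option autoImplicit false

open scoped Classical

namespace Q187.LP.STR2

open Finset Module Q283.LP Q98.LP

/-- two different forms are separated -/
theorem sepa2 {N M : Type} [Fintype N] (e : M → N → ZMod 2) (h0 : ∀ j, e j ≠ 0) {j j' : M}
    (h : e j ≠ e j') : ∃ t : N → ZMod 2, ∑ i, e j i * t i = 1 ∧ ∑ i, e j' i * t i = 0 := by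
  have h1 := sepa (fun v : {v : N → ZMod 2 // v ≠ 0} => v.1) Subtype.val_injective
    (fun v => v.2) (j := ⟨e j, h0 j⟩) (j' := ⟨e j', h0 j'⟩)
    (fun h' => h (congrArg Subtype.val h'))
  exact h1

section main
variable {N M K : Type} [Fintype N] [Fintype K] {e : M → N → ZMod 2} {κ : K → M}
  {Z : (N → ZMod 2) → Finset (WW K)}

/-- restriction to the coordinates with a given label -/
theorem res_lab (h1 : S_ISO) (hF : Fa e κ Z) (hc : ∀ t, (Z t).card = 2 ^ (Jt e κ t).card)
    (y : (N → ZMod 2) × (M → ZMod 2))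
    (hy : ∀ z ∈ Z y.1, ∀ w ∈ Z y.1,
      ∑ k ∈ Jt e κ y.1, y.2 (κ k) * (z.1 k * w.2 k + w.1 k * z.2 k) = 0)
    (c : ZMod 2) {z : WW K} (hz : z ∈ Z y.1) :
    res ((Jt e κ y.1).filter fun k => y.2 (κ k) = c) z ∈ Z y.1 := by
  rw [← mem_LL h1 hF hc]
  refine Q187.LP.maxi (Jt e κ y.1) (LL Z y.1) (LL_sup hF y.1) (LL_iso hF y.1)
    (rank_LL h1 hF hc y.1).ge _ ?_ ?_
  · intro k hk
    unfold res
    have hk' : k ∉ (Jt e κ y.1).filter fun k => y.2 (κ k) = c := fun h => hk (mem_filter.1 h).1
    exact ⟨if_neg hk', if_neg hk'⟩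
  · intro w hw
    have hw' : w ∈ Z y.1 := (mem_LL h1 hF hc y.1 w).1 hw
    have hB := LL_iso hF y.1 z ((mem_LL h1 hF hc y.1 z).2 hz) w hw
    have hL := hy z hz w hw'
    have e1 : Bf (Jt e κ y.1) (res ((Jt e κ y.1).filter fun k => y.2 (κ k) = c) z) w =
        (1 + c) * Bf (Jt e κ y.1) z w +
          ∑ k ∈ Jt e κ y.1, y.2 (κ k) * (z.1 k * w.2 k + w.1 k * z.2 k) := by
      unfold Bf res
      rw [mul_sum, ← sum_add_distrib]
      refine sum_congr rfl fun k hk => ?_
      have hch : ∀ a c : ZMod 2, a = c → 1 + c + a = 1 := by decide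
      have hch' : ∀ a c : ZMod 2, a ≠ c → 1 + c + a = 0 := by decide
      by_cases hl : y.2 (κ k) = c
      · have hm : k ∈ (Jt e κ y.1).filter fun k => y.2 (κ k) = c := mem_filter.2 ⟨hk, hl⟩
        simp only [if_pos hm]
        rw [← add_mul, hch _ _ hl, one_mul]
      · have hm : k ∉ (Jt e κ y.1).filter fun k => y.2 (κ k) = c :=
          fun h => hl (mem_filter.1 h).2
        simp only [if_neg hm]
        rw [← add_mul, hch' _ _ hl]
        ring
    rw [e1, hB, hL, mul_zero, add_zero]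

/-- the class of a form: the coordinates of all forms with the same exponent -/
noncomputable def cls (e : M → N → ZMod 2) (κ : K → M) (j : M) : Finset K :=
  univ.filter fun k => e (κ k) = e j

theorem cls_sub {t : N → ZMod 2} {j : M} (hj : ∑ i, e j i * t i = 1) : cls e κ j ⊆ Jt e κ t := by
  intro k hk
  unfold cls at hk
  rw [mem_filter] at hk
  rw [mem_Jt, hk.2, hj]

theorem res_cls_mem (h0 : ∀ j, e j ≠ 0) (h1 : S_ISO) (h2 : S_DEC)
    (hF : Fa e κ Z) (hc : ∀ t, (Z t).card = 2 ^ (Jt e κ t).card) {t : N → ZMod 2} {z : WW K}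
    (hz : z ∈ Z t) {j : M} (hj : ∑ i, e j i * t i = 1) {t' : N → ZMod 2}
    (hj' : ∑ i, e j i * t' i = 1) : res (cls e κ j) z ∈ Z t' := by
  have a : res (cls e κ j) z ∈ Z t := by
    have := res_inter_mem h1 h2 hF hc t hz (univ.filter fun s => ∑ i, e j i * s i = 1)
    convert this using 2
    ext k
    unfold cls
    simp only [mem_filter, mem_univ, true_and]
    constructor
    · intro hk
      exact ⟨mem_Jt.2 (by rw [hk]; exact hj), fun s hs => mem_Jt.2 (by rw [hk]; exact hs)⟩
    · rintro ⟨_, hk⟩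
      by_contra hne
      obtain ⟨s, hs1, hs2⟩ := sepa2 e h0 (j := j) (j' := κ k) (fun h => hne h.symm)
      have := mem_Jt.1 (hk s hs1)
      rw [hs2] at this
      exact zero_ne_one this
  have b := (res_mem h1 h2 hF hc t t' a).2
  rw [res_res] at b
  convert b using 2
  symm
  rw [inter_eq_right]
  exact fun k hk => mem_inter.2 ⟨cls_sub hj hk, cls_sub hj' hk⟩

theorem res_blk_mem2 [Fintype M] {𝒟 : Set ((N → ZMod 2) × (M → ZMod 2))}
    (h0 : ∀ j, e j ≠ 0) (h1 : S_ISO) (h2 : S_DEC)
    (hF : Fa e κ Z) (hc : ∀ t, (Z t).card = 2 ^ (Jt e κ t).card)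
    (hsep : ∀ j l, j ≠ l → e j = e l → ∃ y ∈ 𝒟, ∑ i, e j i * y.1 i = 1 ∧ y.2 j ≠ y.2 l)
    (hD : ∀ y ∈ 𝒟, ∀ z ∈ Z y.1, ∀ w ∈ Z y.1,
      ∑ k ∈ Jt e κ y.1, y.2 (κ k) * (z.1 k * w.2 k + w.1 k * z.2 k) = 0)
    {t : N → ZMod 2} {z : WW K}
    (hz : z ∈ Z t) {j : M} (hj : ∑ i, e j i * t i = 1) {t' : N → ZMod 2}
    (hj' : ∑ i, e j i * t' i = 1) : res (blk κ j) z ∈ Z t' := by
  have hch : ∀ l : {l : M // j ≠ l ∧ e j = e l}, ∃ y ∈ 𝒟, ∑ i, e j i * y.1 i = 1 ∧
      y.2 j ≠ y.2 l.1 := fun l => hsep j l.1 l.2.1 l.2.2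
  choose y hy1 hy2 hy3 using hch
  have key : ∀ T : Finset {l : M // j ≠ l ∧ e j = e l}, ∀ t' : N → ZMod 2,
      ∑ i, e j i * t' i = 1 →
      res (univ.filter fun k => e (κ k) = e j ∧ ∀ l ∈ T, (y l).2 (κ k) = (y l).2 j) z ∈ Z t' := by
    intro T
    induction T using Finset.induction_on with
    | empty =>
      intro t' ht'
      have := res_cls_mem h0 h1 h2 hF hc hz hj ht'
      convert this using 2
      unfold cls
      ext k
      simp
    | insert a T _ ih =>
      intro t' ht'
      have i1 := ih (y a).1 (hy2 a)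
      have i2 := res_lab h1 hF hc (y a) (hD (y a) (hy1 a)) ((y a).2 j) i1
      have i3 := (res_mem h1 h2 hF hc (y a).1 t' i2).2
      rw [res_res, res_res] at i3
      convert i3 using 2
      ext k
      simp only [mem_filter, mem_univ, true_and, mem_inter, mem_insert, forall_eq_or_imp]
      constructor
      · rintro ⟨q1, q2, q3⟩
        have q4 : k ∈ Jt e κ (y a).1 := mem_Jt.2 (by rw [q1]; exact hy2 a)
        have q5 : k ∈ Jt e κ t' := mem_Jt.2 (by rw [q1]; exact ht')
        tauto
      · tauto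
  have h3 := key univ t' hj'
  convert h3 using 2
  ext k
  unfold blk
  simp only [mem_filter, mem_univ, true_and, forall_const]
  constructor
  · rintro rfl
    exact ⟨rfl, fun l => rfl⟩
  · rintro ⟨q1, q2⟩
    by_contra hne
    exact hy3 ⟨κ k, fun h => hne h.symm, q1.symm⟩ (q2 ⟨κ k, fun h => hne h.symm, q1.symm⟩).symm

end main

theorem t_CLO (h : Q283.LP.S_ISO) : Q283.LP.S_CLO := by
  intro N M K _ _ _ e κ Z hF hc t z hz w hw
  rw [← mem_LL h hF hc] at hz hw ⊢
  exact (LL Z t).add_mem hz hw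

theorem t_STR2 (h1 : Q283.LP.S_ISO) (h2 : Q283.LP.S_DEC) : Q283.LP.S_STR2 := by
  intro N M K _ _ _ e κ Z 𝒟 h0 hF hc hind hsep hD
  have hsub : ∀ t, ∀ z ∈ Z t, ∀ w ∈ Z t, z - w ∈ Z t := by
    intro t z hz w hw
    rw [← mem_LL h1 hF hc] at hz hw ⊢
    exact (LL Z t).sub_mem hz hw
  -- the projection is injective
  have hker : ∀ t, ∀ z ∈ Z t, z.1 = 0 → z = 0 := by
    intro t z hz hz1
    have hz2 : ∀ k, z.2 k = 0 := by
      intro k
      by_cases hk : k ∈ Jt e κ t
      · have hj : ∑ i, e (κ k) i * t i = 1 := mem_Jt.1 hk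
        refine hind (κ k) z.2 (fun t' w hw => ?_) k rfl
        by_cases hj' : ∑ i, e (κ k) i * t' i = 1
        · have a := res_blk_mem2 h0 h1 h2 hF hc hsep hD hz hj hj'
          have b := fa_B hF a hw
          rw [inter_self] at b
          unfold Bf res at b
          simp only [hz1, Pi.zero_apply, ite_self, zero_mul, zero_add] at b
          rw [← b]
          have hs : (univ.filter fun l => κ l = κ k) ⊆ Jt e κ t' := blk_sub hj'
          rw [← Finset.sum_subset hs]
          · refine sum_congr rfl fun l hl => ?_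
            have : l ∈ blk κ (κ k) := hl
            rw [if_pos this, mul_comm]
          · intro l _ hl
            have : l ∉ blk κ (κ k) := hl
            rw [if_neg this, mul_zero]
        · refine sum_eq_zero fun l hl => ?_
          rw [mem_filter] at hl
          have hl2 : l ∉ Jt e κ t' := by
            rw [mem_Jt, hl.2]
            exact hj'
          rw [(hF.sup t' w hw l hl2).1, mul_zero]
      · exact (hF.sup t z hz k hk).2
    exact Prod.ext hz1 (funext hz2)
  have hinj : ∀ t, ∀ z ∈ Z t, ∀ w ∈ Z t, z.1 = w.1 → z = w := by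
    intro t z hz w hw h
    have := hker t (z - w) (hsub t z hz w hw) (by rw [Prod.fst_sub, h, sub_self])
    exact sub_eq_zero.1 this
  -- surjective
  have hsur : ∀ t, ∀ x : K → ZMod 2, (∀ k, k ∉ Jt e κ t → x k = 0) → ∃ z ∈ Z t, z.1 = x := by
    intro t x hx
    have h3 : (Z t).image Prod.fst = univ.filter fun x : K → ZMod 2 => ∀ k, k ∉ Jt e κ t → x k = 0 := by
      refine Finset.eq_of_subset_of_card_le ?_ ?_
      · intro y hy
        rw [mem_image] at hy
        obtain ⟨z, hz, rfl⟩ := hy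
        rw [mem_filter]
        exact ⟨mem_univ _, fun k hk => (hF.sup t z hz k hk).1⟩
      · rw [card_sup, Finset.card_image_of_injOn, hc t]
        intro z hz w hw h
        exact hinj t z (Finset.mem_coe.1 hz) w (Finset.mem_coe.1 hw) h
    have h4 : x ∈ (Z t).image Prod.fst := by
      rw [h3, mem_filter]
      exact ⟨mem_univ _, hx⟩
    rw [mem_image] at h4
    exact h4
  -- the unit vectors
  have hunit : ∀ l : K, ∃ z : WW K, z.1 = Pi.single l 1 ∧ (∀ k, κ k ≠ κ l → z.2 k = 0) ∧
      ∀ t, ∑ i, e (κ l) i * t i = 1 → z ∈ Z t := by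
    intro l
    obtain ⟨t, ht⟩ := one_form e h0 (κ l)
    obtain ⟨z, hz, hz1⟩ := hsur t (Pi.single l 1) (fun k hk => by
      refine Pi.single_eq_of_ne ?_ _
      rintro rfl
      exact hk (mem_Jt.2 ht))
    have hzr : res (blk κ (κ l)) z = z := by
      refine hinj t _ (res_blk_mem2 h0 h1 h2 hF hc hsep hD hz ht ht) z hz ?_
      unfold res
      simp only
      rw [hz1]
      funext k
      by_cases hk : k = l
      · subst hk
        rw [if_pos (by unfold blk; simp)]
      · rw [Pi.single_eq_of_ne hk, ite_self]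
    refine ⟨z, hz1, fun k hk => ?_, fun t' ht' => ?_⟩
    · rw [← hzr]
      unfold res
      simp only
      rw [if_neg]
      unfold blk
      simpa using hk
    · rw [← hzr]
      exact res_blk_mem2 h0 h1 h2 hF hc hsep hD hz ht ht'
  choose zz hz1 hz2 hz3 using hunit
  refine ⟨fun k l => (zz l).2 k, ⟨?_, ?_, ?_⟩, ?_, hsur⟩
  · -- symmetric
    intro k l
    by_cases hkl : κ k = κ l
    · obtain ⟨t, ht⟩ := one_form e h0 (κ l)
      have a := hz3 l t ht
      have b := hz3 k t (by rw [hkl]; exact ht)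
      have c := fa_B hF a b
      rw [inter_self] at c
      unfold Bf at c
      rw [hz1, hz1, sum_add_distrib, Finset.sum_eq_single l, Finset.sum_eq_single k] at c
      · simp only [Pi.single_eq_same, one_mul] at c
        have e2 : ∀ a b : ZMod 2, a + b = 0 → b = a := by decide
        exact e2 _ _ c
      · intro i _ hi
        rw [Pi.single_eq_of_ne hi, zero_mul]
      · intro hk
        exact absurd (mem_Jt.2 (by rw [hkl]; exact ht)) hk
      · intro i _ hi
        rw [Pi.single_eq_of_ne hi, zero_mul]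
      · intro hk
        exact absurd (mem_Jt.2 ht) hk
    · simp only
      rw [hz2 l k hkl, hz2 k l (fun h => hkl h.symm)]
  · intro k
    obtain ⟨t, ht⟩ := one_form e h0 (κ k)
    have c := fa_Q hF (t' := t) (hz3 k t ht)
    rw [inter_self] at c
    unfold Qf at c
    rw [hz1, Finset.sum_eq_single k] at c
    · simpa using c
    · intro i _ hi
      rw [Pi.single_eq_of_ne hi, zero_mul]
    · intro hk
      exact absurd (mem_Jt.2 ht) hk
  · intro k l hkl
    exact hz2 l k hkl
  · intro t z hz k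
    have hz' : (∑ l, z.1 l • zz l) ∈ Z t := by
      rw [← mem_LL h1 hF hc]
      refine Submodule.sum_mem _ fun l _ => ?_
      by_cases hl : l ∈ Jt e κ t
      · exact (LL Z t).smul_mem _ ((mem_LL h1 hF hc t _).2 (hz3 l t (mem_Jt.1 hl)))
      · rw [(hF.sup t z hz l hl).1, zero_smul]
        exact (LL Z t).zero_mem
    have heq : z = ∑ l, z.1 l • zz l := by
      refine hinj t z hz _ hz' ?_
      rw [Prod.fst_sum]
      funext i
      rw [Finset.sum_apply, Finset.sum_eq_single i]
      · simp [hz1]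
      · intro b _ hb
        rw [Prod.smul_fst, hz1, Pi.smul_apply, Pi.single_eq_of_ne (fun h => hb h.symm), smul_zero]
      · simp
    have h5 : z.2 k = (∑ l, z.1 l • zz l).2 k := by rw [← heq]
    rw [h5, Prod.snd_sum, Finset.sum_apply]
    refine sum_congr rfl fun l _ => ?_
    rw [Prod.smul_snd, Pi.smul_apply, smul_eq_mul, mul_comm]

end Q187.LP.STR2
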