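import Pool.Agent.Q283.LP.Stm3
import Pool.Agent.Q162.LP.TYP

/-! Project LP (helper283), second version: most tuples are typical and separated (with the proof
of helper162 for the first part). -/

set_option autoImplicit false

open Finset
open scoped Classical

namespace Q187.LP.TYP2

open Q283.LP Q162.LP

theorem Rgg_mono {U I : Type} [Fintype U] [Fintype I] {g : Gr U I} {A R A' R' : ℕ}
    (h : Rgg g A' R') (hA : A ≤ A') (hR : R ≤ R') : Rgg g A R := by
  have h1 : A * Fintype.card U + R ≤ A' * Fintype.card U + R' :=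
    Nat.add_le_add (Nat.mul_le_mul_right _ hA) hR
  exact ⟨fun w hw hw' => h1.trans (h.nd w hw hw'), h1.trans h.act, h1.trans h.pas⟩

theorem lj_add {U I N M : Type} [Fintype U] [Fintype I] [Fintype N] (g : Gr U I)
    (e : M → N → ZMod 2) (m : M → U → ZMod 2) (τ : U → N → ZMod 2) (p : I) (j l : M)
    (h : e j = e l) : lj g (bb e m τ) p j + lj g (bb e m τ) p l =
      ∑ u, (m j u + m l u) * g.lb p u := by
  have h1 : ∀ j, lj g (bb e m τ) p j = ∑ u, (m j u + ∑ i, e j i * τ u i) * g.lb p u := by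
    intro j
    unfold lj
    rw [sum_filter]
    refine sum_congr rfl fun u _ => ?_
    have h2 : ∀ a : ZMod 2, a ≠ 1 → a = 0 := by decide
    by_cases hb : bb e m τ j u
    · rw [if_pos hb]
      have hb' : m j u + ∑ i, e j i * τ u i = 1 := hb
      rw [hb', one_mul]
    · rw [if_neg hb]
      have hb' : ¬ (m j u + ∑ i, e j i * τ u i = 1) := hb
      rw [h2 _ hb', zero_mul]
  rw [h1, h1, ← sum_add_distrib]
  refine sum_congr rfl fun u _ => ?_
  rw [h]
  have h3 : ∀ a : ZMod 2, a + a = 0 := by decide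
  have h4 := h3 (∑ i, e l i * τ u i)
  linear_combination g.lb p u * h4

theorem t_TYP2 : S_TYP2 := by
  intro N M _ _ e he C R δ hδ
  obtain ⟨A1, R1, hT1⟩ := t_TYP N M e he C R (δ / 2) (by positivity)
  have hq : (0 : ℝ) < δ / 2 / (((Fintype.card M : ℝ) ^ 2 + 1) * 2 ^ R) := by positivity
  obtain ⟨R2, hR2⟩ := exists_pow_lt_of_lt_one hq (show (3 / 4 : ℝ) < 1 by norm_num)
  refine ⟨max A1 (3 * C), max R1 R2, ?_⟩
  intro U I _ _ g m τ hg hs
  set T : ℝ := (Fintype.card (I → N → ZMod 2) : ℝ) with hT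
  have hT0 : 0 ≤ T := Nat.cast_nonneg _
  have h1 := hT1 U I g (Rgg_mono hg (le_max_left _ _) (le_max_left _ _))
  set u : ℕ := Fintype.card U with hu
  -- the bad set for a pair
  have hpair : ∀ j l : M, j ≠ l → e j = e l → ((univ.filter fun t : I → N → ZMod 2 =>
      ¬ (C * u + R ≤ (univ.filter fun p => g.aI p ∧ ∑ i, e j i * t p i = 1 ∧
        lj g (bb e m τ) p j ≠ lj g (bb e m τ) p l).card)).card : ℝ) ≤
      T * (2 ^ R * (3 / 4) ^ R2) := by
    intro j l hjl hejl
    have hset : ∀ t : I → N → ZMod 2, (univ.filter fun p => g.aI p ∧ ∑ i, e j i * t p i = 1 ∧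
        lj g (bb e m τ) p j ≠ lj g (bb e m τ) p l) =
        (univ.filter fun p => (g.aI p ∧ ∑ u, (m j u + m l u) * g.lb p u ≠ 0) ∧
          ∑ i, e j i * t p i = 1) := by
      intro t
      ext p
      simp only [mem_filter, mem_univ, true_and]
      have h3 : ∀ a b : ZMod 2, a ≠ b ↔ a + b ≠ 0 := by decide
      rw [h3, lj_add g e m τ p j l hejl]
      tauto
    have hc := count_le (univ.filter fun p => g.aI p ∧ ∑ u, (m j u + m l u) * g.lb p u ≠ 0)
      (fun v : N → ZMod 2 => if ∑ i, e j i * v i = 1 then (1 / 2 : ℝ) else 1)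
      (fun v => by split_ifs <;> norm_num) (fun t : I → N → ZMod 2 =>
        ¬ (C * u + R ≤ (univ.filter fun p => g.aI p ∧ ∑ i, e j i * t p i = 1 ∧
        lj g (bb e m τ) p j ≠ lj g (bb e m τ) p l).card)) (2 ^ (C * u + R)) (by positivity)
      (fun t ht => by
        rw [hset t] at ht
        have h2 : ∏ p ∈ univ.filter (fun p => g.aI p ∧ ∑ u, (m j u + m l u) * g.lb p u ≠ 0),
            (if ∑ i, e j i * t p i = 1 then (1 / 2 : ℝ) else 1) =
            (1 / 2) ^ (univ.filter fun p => (g.aI p ∧ ∑ u, (m j u + m l u) * g.lb p u ≠ 0) ∧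
              ∑ i, e j i * t p i = 1).card := by
          rw [Finset.prod_ite, Finset.prod_const, Finset.prod_const_one, mul_one,
            Finset.filter_filter]
        rw [h2]
        have h3 : (univ.filter fun p => (g.aI p ∧ ∑ u, (m j u + m l u) * g.lb p u ≠ 0) ∧
              ∑ i, e j i * t p i = 1).card ≤ C * u + R := by omega
        calc (1 : ℝ) = 2 ^ (C * u + R) * (1 / 2) ^ (C * u + R) := by rw [← mul_pow]; norm_num
          _ ≤ 2 ^ (C * u + R) * (1 / 2) ^ (univ.filter fun p => (g.aI p ∧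
              ∑ u, (m j u + m l u) * g.lb p u ≠ 0) ∧ ∑ i, e j i * t p i = 1).card := by
            refine mul_le_mul_of_nonneg_left ?_ (by positivity)
            exact pow_le_pow_of_le_one (by norm_num) (by norm_num) h3)
    refine hc.trans ?_
    have hK : (Fintype.card (N → ZMod 2) : ℝ) ≠ 0 := by exact_mod_cast Fintype.card_ne_zero
    have hmean : (∑ v : N → ZMod 2, (if ∑ i, e j i * v i = 1 then (1 / 2 : ℝ) else 1)) /
        (Fintype.card (N → ZMod 2) : ℝ) = 3 / 4 := by
      have h4 : ∀ v : N → ZMod 2, (if ∑ i, e j i * v i = 1 then (1 / 2 : ℝ) else 1) =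
          1 / 2 + 1 / 2 * (if ∑ i, e j i * v i = 0 then 1 else 0) := by
        intro v
        have h5 : ∀ a : ZMod 2, a ≠ 1 → a = 0 := by decide
        by_cases h6 : ∑ i, e j i * v i = 1
        · rw [if_pos h6, if_neg (by rw [h6]; decide)]
          norm_num
        · rw [if_neg h6, if_pos (h5 _ h6)]
          norm_num
      rw [Finset.sum_congr rfl fun v _ => h4 v, Finset.sum_add_distrib, ← Finset.mul_sum,
        Finset.sum_const, Finset.card_univ, nsmul_eq_mul, add_div, mul_div_assoc (1 / 2 : ℝ),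
        half (e j) (he j)]
      field_simp
      norm_num
    rw [hmean]
    have hP : 3 * C * u + R2 ≤ (univ.filter fun p => g.aI p ∧
        ∑ u, (m j u + m l u) * g.lb p u ≠ 0).card := by
      refine le_trans ?_ (hs j l hjl hejl)
      exact Nat.add_le_add (Nat.mul_le_mul_right _ (le_max_right _ _)) (le_max_right _ _)
    have h7 : ((3 : ℝ) / 4) ^ (univ.filter fun p => g.aI p ∧
        ∑ u, (m j u + m l u) * g.lb p u ≠ 0).card ≤ (3 / 4) ^ (3 * C * u + R2) :=
      pow_le_pow_of_le_one (by norm_num) (by norm_num) hP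
    have h8 : (2 : ℝ) ^ (C * u) * (3 / 4) ^ (3 * C * u) ≤ 1 := by
      have e1 : (3 / 4 : ℝ) ^ (3 * C * u) = ((3 / 4 : ℝ) ^ 3) ^ (C * u) := by
        rw [← pow_mul]; congr 1; ring
      rw [e1, ← mul_pow]
      exact pow_le_one₀ (by norm_num) (by norm_num)
    calc (2 : ℝ) ^ (C * u + R) * (T * (3 / 4) ^ (univ.filter fun p => g.aI p ∧
          ∑ u, (m j u + m l u) * g.lb p u ≠ 0).card)
        ≤ 2 ^ (C * u + R) * (T * (3 / 4) ^ (3 * C * u + R2)) := by gcongr
      _ = T * (2 ^ R * (3 / 4) ^ R2) * (2 ^ (C * u) * (3 / 4) ^ (3 * C * u)) := by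
          rw [pow_add, pow_add]; ring
      _ ≤ T * (2 ^ R * (3 / 4) ^ R2) * 1 :=
          mul_le_mul_of_nonneg_left h8 (by positivity)
      _ = _ := mul_one _
  -- the union
  set PP : Finset (M × M) := univ.filter fun jl => jl.1 ≠ jl.2 ∧ e jl.1 = e jl.2 with hPP
  have hsub : (univ.filter fun t : I → N → ZMod 2 => ¬ Ty2 g e (bb e m τ) C R t) ⊆
      (univ.filter fun t : I → N → ZMod 2 => ¬ Ty g e C R t) ∪
      PP.biUnion fun jl => univ.filter fun t : I → N → ZMod 2 =>
        ¬ (C * u + R ≤ (univ.filter fun p => g.aI p ∧ ∑ i, e jl.1 i * t p i = 1 ∧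
        lj g (bb e m τ) p jl.1 ≠ lj g (bb e m τ) p jl.2).card) := by
    intro t ht
    rw [mem_filter] at ht
    by_contra hcon
    rw [mem_union, not_or] at hcon
    obtain ⟨c1, c2⟩ := hcon
    refine ht.2 ⟨?_, ?_⟩
    · by_contra h9
      exact c1 (mem_filter.2 ⟨mem_univ _, h9⟩)
    · intro j l hjl hejl
      by_contra h9
      apply c2
      rw [mem_biUnion]
      exact ⟨(j, l), mem_filter.2 ⟨mem_univ _, hjl, hejl⟩, mem_filter.2 ⟨mem_univ _, h9⟩⟩
  have hcard := (Finset.card_le_card hsub).trans (Finset.card_union_le _ _)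
  have h2 : ((PP.biUnion fun jl => univ.filter fun t : I → N → ZMod 2 =>
        ¬ (C * u + R ≤ (univ.filter fun p => g.aI p ∧ ∑ i, e jl.1 i * t p i = 1 ∧
        lj g (bb e m τ) p jl.1 ≠ lj g (bb e m τ) p jl.2).card)).card : ℝ) ≤
        (Fintype.card M : ℝ) ^ 2 * (T * (2 ^ R * (3 / 4) ^ R2)) := by
    refine (Nat.cast_le.2 Finset.card_biUnion_le).trans ?_
    rw [Nat.cast_sum]
    refine (Finset.sum_le_sum fun jl hjl => hpair jl.1 jl.2 (mem_filter.1 hjl).2.1
      (mem_filter.1 hjl).2.2).trans ?_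
    rw [Finset.sum_const, nsmul_eq_mul]
    refine mul_le_mul_of_nonneg_right ?_ (by positivity)
    have : PP.card ≤ Fintype.card M ^ 2 := by
      refine (Finset.card_le_univ _).trans (le_of_eq ?_)
      rw [Fintype.card_prod, sq]
    exact_mod_cast this
  have h3 : ((univ.filter fun t : I → N → ZMod 2 => ¬ Ty2 g e (bb e m τ) C R t).card : ℝ) ≤
      δ / 2 * T + (Fintype.card M : ℝ) ^ 2 * (T * (2 ^ R * (3 / 4) ^ R2)) := by
    refine (Nat.cast_le.2 hcard).trans ?_
    rw [Nat.cast_add]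
    exact add_le_add h1 h2
  refine h3.trans ?_
  have h4 : (Fintype.card M : ℝ) ^ 2 * (2 ^ R * (3 / 4) ^ R2) ≤ δ / 2 := by
    rw [lt_div_iff₀ (by positivity)] at hR2
    have h5 : (0 : ℝ) ≤ 2 ^ R * (3 / 4) ^ R2 := by positivity
    nlinarith
  nlinarith

end Q187.LP.TYP2
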